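import Mathlib

set_option autoImplicit false

/-!
Closed systems with two missing rows: states are placements of all symbols of `S` in cells
with distinct rows and distinct columns.  Basic counting lemmas for the classes of states
reachable with some rows parked and some columns reserved.
-/

namespace StE5

open scoped Classical
open Finset

noncomputable section

variable {R C S : Type}

/-- Change the position of one symbol. -/
def upd (σ : S → R × C) (s : S) (p : R × C) : S → R × C := fun s' => if s' = s then p else σ s'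

theorem upd_same (σ : S → R × C) (s : S) (p : R × C) : upd σ s p s = p := by simp [upd]

theorem upd_ne (σ : S → R × C) {s s' : S} (p : R × C) (h : s' ≠ s) : upd σ s p s' = σ s' := by
  simp [upd, h]

theorem upd_comm (σ : S → R × C) {s s' : S} (p q : R × C) (h : s ≠ s') :
    upd (upd σ s p) s' q = upd (upd σ s' q) s p := by
  funext a
  by_cases h1 : a = s
  · subst h1
    rw [upd_ne _ _ h, upd_same, upd_same]
  · by_cases h2 : a = s'
    · subst h2
      rw [upd_same, upd_ne _ _ h1, upd_same]
    · rw [upd_ne _ _ h2, upd_ne _ _ h1, upd_ne _ _ h1, upd_ne _ _ h2]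

theorem upd_upd (σ : S → R × C) (s : S) (p q : R × C) :
    upd (upd σ s p) s q = upd σ s q := by
  funext a
  by_cases h1 : a = s
  · subst h1
    rw [upd_same, upd_same]
  · rw [upd_ne _ _ h1, upd_ne _ _ h1, upd_ne _ _ h1]

/-- A closed system: a table `A` whose cells are dead (`none`) or carry a symbol, injective in
every column, and a set of states closed under all exchange moves, where in every state each
cell in a free row and a free column is alive. -/
structure Sys (R C S : Type) where
  A : R → C → Option S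
  inj : ∀ c x y s, A x c = some s → A y c = some s → x = y
  St : Set (S → R × C)
  rinj : ∀ σ ∈ St, ∀ s s', (σ s).1 = (σ s').1 → s = s'
  cinj : ∀ σ ∈ St, ∀ s s', (σ s).2 = (σ s').2 → s = s'
  val : ∀ σ ∈ St, ∀ s, A (σ s).1 (σ s).2 = some s
  step : ∀ σ ∈ St, ∀ x c, (∀ s, (σ s).1 ≠ x) → (∀ s, (σ s).2 ≠ c) →
    ∃ s, A x c = some s ∧ upd σ s (x, c) ∈ St

/-- Free row. -/
def FR (σ : S → R × C) (x : R) : Prop := ∀ s, (σ s).1 ≠ x

/-- Free column. -/
def FC (σ : S → R × C) (c : C) : Prop := ∀ s, (σ s).2 ≠ c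

/-- States reachable by moves not using the rows of `P` nor the columns of `D`. -/
inductive Reach (Y : Sys R C S) (P : Finset R) (D : Finset C) (σ : S → R × C) :
    (S → R × C) → Prop
  | refl : Reach Y P D σ σ
  | step (τ : S → R × C) (x : R) (c : C) (s : S) : Reach Y P D σ τ → x ∉ P → c ∉ D →
      FR τ x → FC τ c → Y.A x c = some s → Reach Y P D σ (upd τ s (x, c))

variable {Y : Sys R C S}

theorem Reach.mem {P : Finset R} {D : Finset C} {σ τ : S → R × C} (hσ : σ ∈ Y.St)
    (h : Reach Y P D σ τ) : τ ∈ Y.St := by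
  induction h with
  | refl => exact hσ
  | step τ x c s _ _ _ hx hc hA ih =>
    obtain ⟨s', h1, h2⟩ := Y.step τ ih x c hx hc
    rw [hA] at h1
    obtain rfl := Option.some.inj h1
    exact h2

theorem Reach.mono {P P' : Finset R} {D D' : Finset C} {σ τ : S → R × C}
    (hP : P' ⊆ P) (hD : D' ⊆ D) (h : Reach Y P D σ τ) : Reach Y P' D' σ τ := by
  induction h with
  | refl => exact Reach.refl
  | step τ x c s _ h1 h2 hx hc hA ih =>
    exact Reach.step τ x c s ih (fun h => h1 (hP h)) (fun h => h2 (hD h)) hx hc hA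

theorem Reach.trans {P : Finset R} {D : Finset C} {σ τ ρ : S → R × C}
    (h : Reach Y P D σ τ) (h' : Reach Y P D τ ρ) : Reach Y P D σ ρ := by
  induction h' with
  | refl => exact h
  | step τ x c s _ h1 h2 hx hc hA ih => exact Reach.step τ x c s ih h1 h2 hx hc hA

theorem Reach.fc {P : Finset R} {D : Finset C} {σ τ : S → R × C} {c : C} (hc : c ∈ D)
    (hσ : FC σ c) (h : Reach Y P D σ τ) : FC τ c := by
  induction h with
  | refl => exact hσ
  | step τ x c' s _ _ h2 _ _ _ ih =>
    intro s'
    by_cases h : s' = s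
    · subst h
      rw [upd_same]
      rintro rfl
      exact h2 hc
    · rw [upd_ne _ _ h]
      exact ih s'

theorem Reach.fr {P : Finset R} {D : Finset C} {σ τ : S → R × C} {x : R} (hx : x ∈ P)
    (hσ : FR σ x) (h : Reach Y P D σ τ) : FR τ x := by
  induction h with
  | refl => exact hσ
  | step τ x' c' s _ h1 _ _ _ _ ih =>
    intro s'
    by_cases h : s' = s
    · subst h
      rw [upd_same]
      rintro rfl
      exact h1 hx
    · rw [upd_ne _ _ h]
      exact ih s'

/-- The row and the column of a moved symbol become free. -/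
theorem fr_upd {σ : S → R × C} (hσ : σ ∈ Y.St) {s : S} {x : R} {c : C} (hx : FR σ x) :
    FR (upd σ s (x, c)) (σ s).1 := by
  intro s'
  by_cases h : s' = s
  · subst h
    rw [upd_same]
    exact fun h => hx s' h.symm
  · rw [upd_ne _ _ h]
    exact fun h' => h (Y.rinj σ hσ _ _ h')

theorem fc_upd {σ : S → R × C} (hσ : σ ∈ Y.St) {s : S} {x : R} {c : C} (hc : FC σ c) :
    FC (upd σ s (x, c)) (σ s).2 := by
  intro s'
  by_cases h : s' = s
  · subst h
    rw [upd_same]
    exact fun h => hc s' h.symm
  · rw [upd_ne _ _ h]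
    exact fun h' => h (Y.cinj σ hσ _ _ h')

/-- Other free rows stay free. -/
theorem fr_upd_ne {σ : S → R × C} {s : S} {x x' : R} {c : C} (hx : FR σ x') (h : x' ≠ x) :
    FR (upd σ s (x, c)) x' := by
  intro s'
  by_cases h' : s' = s
  · subst h'
    rw [upd_same]
    exact fun h'' => h h''.symm
  · rw [upd_ne _ _ h']
    exact hx s'

theorem fc_upd_ne {σ : S → R × C} {s : S} {x : R} {c c' : C} (hc : FC σ c') (h : c' ≠ c) :
    FC (upd σ s (x, c)) c' := by
  intro s'
  by_cases h' : s' = s
  · subst h'
    rw [upd_same]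
    exact fun h'' => h h''.symm
  · rw [upd_ne _ _ h']
    exact hc s'

/-- Every cell in a free row and a free column is alive, and the move is allowed. -/
theorem move {σ : S → R × C} (hσ : σ ∈ Y.St) {x : R} {c : C} (hx : FR σ x) (hc : FC σ c) {s : S}
    (hA : Y.A x c = some s) : upd σ s (x, c) ∈ Y.St := by
  obtain ⟨s', h1, h2⟩ := Y.step σ hσ x c hx hc
  rw [hA] at h1
  obtain rfl := Option.some.inj h1
  exact h2

theorem live {σ : S → R × C} (hσ : σ ∈ Y.St) {x : R} {c : C} (hx : FR σ x) (hc : FC σ c) :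
    ∃ s, Y.A x c = some s := by
  obtain ⟨s', h1, _⟩ := Y.step σ hσ x c hx hc
  exact ⟨s', h1⟩

variable [Fintype R] [Fintype C] [Fintype S]

/-- The frozen symbols. -/
def Fr (Y : Sys R C S) (P : Finset R) (D : Finset C) (σ : S → R × C) : Finset S :=
  univ.filter (fun s => ∀ τ, Reach Y P D σ τ → τ s = σ s)

/-- The active rows. -/
def Act (Y : Sys R C S) (P : Finset R) (D : Finset C) (σ : S → R × C) : Finset R :=
  univ.filter (fun x => x ∉ P ∧ ∃ τ, Reach Y P D σ τ ∧ FR τ x)

theorem mem_Fr {P : Finset R} {D : Finset C} {σ : S → R × C} {s : S} :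
    s ∈ Fr Y P D σ ↔ ∀ τ, Reach Y P D σ τ → τ s = σ s := by
  simp [Fr]

theorem mem_Act {P : Finset R} {D : Finset C} {σ : S → R × C} {x : R} :
    x ∈ Act Y P D σ ↔ x ∉ P ∧ ∃ τ, Reach Y P D σ τ ∧ FR τ x := by
  simp [Act]

/-- A symbol which is not frozen leaves its cell at some moment. -/
theorem exists_free {P : Finset R} {D : Finset C} {σ : S → R × C} (hσ : σ ∈ Y.St) {s : S}
    (hs : s ∉ Fr Y P D σ) :
    ∃ τ, Reach Y P D σ τ ∧ FR τ (σ s).1 ∧ FC τ (σ s).2 := by
  have key : ∀ τ, Reach Y P D σ τ →
      (∃ ρ, Reach Y P D σ ρ ∧ FR ρ (σ s).1 ∧ FC ρ (σ s).2) ∨ τ s = σ s := by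
    intro τ h
    induction h with
    | refl => exact Or.inr rfl
    | step τ x c s' h0 h1 h2 hx hc hA ih =>
      rcases ih with ih | ih
      · exact Or.inl ih
      · by_cases h : s = s'
        · subst h
          left
          refine ⟨upd τ s (x, c), Reach.step τ x c s h0 h1 h2 hx hc hA, ?_, ?_⟩
          · rw [← ih]
            exact fr_upd (h0.mem hσ) hx
          · rw [← ih]
            exact fc_upd (h0.mem hσ) hc
        · right
          rw [upd_ne _ _ h]
          exact ih
  by_contra hcon
  apply hs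
  rw [mem_Fr]
  intro τ hτ
  rcases key τ hτ with h | h
  · exact absurd h hcon
  · exact h

/-- The key property of a reserved column. -/
theorem key_res {P : Finset R} {D : Finset C} {σ τ : S → R × C} (hσ : σ ∈ Y.St) {c : C}
    (hc : FC σ c) (hcD : c ∈ D) (h : Reach Y P D σ τ) {x : R} (hxP : x ∉ P) (hx : FR τ x) :
    ∃ s, Y.A x c = some s ∧ s ∉ Fr Y P (D.erase c) σ := by
  obtain ⟨s, hs⟩ := live (h.mem hσ) hx (h.fc hcD hc)
  refine ⟨s, hs, ?_⟩
  intro hF
  rw [mem_Fr] at hF
  have := hF _ (Reach.step τ x c s (h.mono (Finset.Subset.refl _) (Finset.erase_subset _ _)) hxP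
    (Finset.notMem_erase _ _) hx (h.fc hcD hc) hs)
  rw [upd_same] at this
  exact hc s (by rw [← this])

theorem cover {P : Finset R} {D : Finset C} {σ : S → R × C} (hσ : σ ∈ Y.St) (x : R) :
    x ∈ P ∨ x ∈ Act Y P D σ ∨ x ∈ (Fr Y P D σ).image (fun s => (σ s).1) := by
  by_cases hP : x ∈ P
  · exact Or.inl hP
  right
  by_cases hx : FR σ x
  · left
    rw [mem_Act]
    exact ⟨hP, σ, Reach.refl, hx⟩
  · unfold FR at hx
    push Not at hx
    obtain ⟨s, hs⟩ := hx
    by_cases hF : s ∈ Fr Y P D σ
    · right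
      rw [Finset.mem_image]
      exact ⟨s, hF, hs⟩
    · left
      obtain ⟨τ, h1, h2, _⟩ := exists_free hσ hF
      rw [mem_Act]
      rw [hs] at h2
      exact ⟨hP, τ, h1, h2⟩

/-- Reserving one more column freezes `2 - |P|` more rows. -/
theorem count_res {P : Finset R} {D : Finset C} {σ : S → R × C} (hσ : σ ∈ Y.St) {c : C}
    (hc : FC σ c) (hcD : c ∈ D) :
    Fintype.card R + (Fr Y P (D.erase c) σ).card ≤
      P.card + Fintype.card S + (Fr Y P D σ).card := by
  have h1 : (univ : Finset R) ⊆ P ∪ (Act Y P D σ ∪ (Fr Y P D σ).image (fun s => (σ s).1)) := by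
    intro x _
    rw [Finset.mem_union, Finset.mem_union]
    exact cover hσ x
  have h2 : Fintype.card R ≤ P.card + ((Act Y P D σ).card + (Fr Y P D σ).card) := by
    calc Fintype.card R = (univ : Finset R).card := rfl
      _ ≤ _ := Finset.card_le_card h1
      _ ≤ _ := Finset.card_union_le _ _
      _ ≤ P.card + ((Act Y P D σ).card + ((Fr Y P D σ).image (fun s => (σ s).1)).card) :=
        Nat.add_le_add_left (Finset.card_union_le _ _) _
      _ ≤ _ := Nat.add_le_add_left (Nat.add_le_add_left Finset.card_image_le _) _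
  have h3 : (Act Y P D σ).card ≤ ((Fr Y P (D.erase c) σ)ᶜ).card := by
    have hex : ∀ x ∈ Act Y P D σ, ∃ s, Y.A x c = some s ∧ s ∉ Fr Y P (D.erase c) σ := by
      intro x hx
      rw [mem_Act] at hx
      obtain ⟨hxP, τ, h, hx⟩ := hx
      exact key_res hσ hc hcD h hxP hx
    refine le_trans ?_ (Finset.card_image_le (s := (Fr Y P (D.erase c) σ)ᶜ) (f := some))
    apply Finset.card_le_card_of_injOn (fun x => Y.A x c)
    · intro x hx
      obtain ⟨s, h1, h2⟩ := hex x hx
      rw [Finset.mem_coe, Finset.mem_image]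
      exact ⟨s, Finset.mem_compl.2 h2, h1.symm⟩
    · intro x hx y hy hxy
      obtain ⟨s, h1, _⟩ := hex x hx
      simp only at hxy
      rw [h1] at hxy
      exact Y.inj c x y _ h1 hxy.symm
  rw [Finset.card_compl] at h3
  have h4 : (Fr Y P (D.erase c) σ).card ≤ Fintype.card S := Finset.card_le_univ _
  omega

theorem count_res_set {P : Finset R} {σ : S → R × C} (hσ : σ ∈ Y.St) (k : ℕ)
    (hR : Fintype.card R = Fintype.card S + P.card + k) (D D' : Finset C)
    (hD : ∀ c ∈ D, FC σ c) (hdis : Disjoint D D') :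
    (Fr Y P D' σ).card + k * D.card ≤ (Fr Y P (D' ∪ D) σ).card := by
  induction D using Finset.induction_on with
  | empty => simp
  | insert c D hc ih =>
    have hD' : ∀ c ∈ D, FC σ c := fun c' h => hD c' (Finset.mem_insert_of_mem h)
    have hdis' : Disjoint D D' := by
      rw [Finset.disjoint_insert_left] at hdis
      exact hdis.2
    have h1 := ih hD' hdis'
    have hcD' : c ∉ D' := by
      rw [Finset.disjoint_insert_left] at hdis
      exact hdis.1
    have h2 := count_res (Y := Y) (P := P) (D := D' ∪ insert c D) hσ (hD c (Finset.mem_insert_self _ _))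
      (Finset.mem_union_right _ (Finset.mem_insert_self _ _))
    have h3 : (D' ∪ insert c D).erase c = D' ∪ D := by
      ext a
      simp only [Finset.mem_erase, Finset.mem_union, Finset.mem_insert]
      constructor
      · rintro ⟨h1, h2 | h2 | h2⟩
        · exact Or.inl h2
        · exact absurd h2 h1
        · exact Or.inr h2
      · rintro (h | h)
        · exact ⟨fun h' => hcD' (h' ▸ h), Or.inl h⟩
        · exact ⟨fun h' => hc (h' ▸ h), Or.inr (Or.inr h)⟩
    rw [h3] at h2
    rw [Finset.card_insert_of_notMem hc, Nat.mul_add]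
    omega

end

end StE5
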