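import Pool.Agent.StE5.CaseB

set_option autoImplicit false
set_option linter.unusedSectionVars false

/-!
The case in which the dead pairs of two columns are equal or disjoint.
-/

namespace StE5

open scoped Classical
open Finset

noncomputable section

variable {R C S : Type} {Y : Sys R C S} [Fintype R] [Fintype C] [Fintype S] {u : ℕ}

/-- Dead pairs are equal or disjoint. -/
def Dis (Y : Sys R C S) : Prop := ∀ c d, N Y c ≠ N Y d → ∀ x, x ∈ N Y c → x ∉ N Y d

theorem ss_disj (hp : Perf Y u) (hdis : Dis Y) {c d : C} (h : N Y c ≠ N Y d) {w : S}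
    (h1 : SS Y c w) (h2 : SS Y d w) : False := by
  have hcd : c ≠ d := by
    rintro rfl
    exact h rfl
  obtain ⟨σ, hσ, hc, hd⟩ := P4 hp hcd
  rw [← ss_iff hp hσ hc] at h1
  rw [← ss_iff hp hσ hd] at h2
  exact hdis c d h _ h1 h2

theorem ss_of (c : C) {n : R} (hn : n ∈ N Y c) {d : C} {w : S} (h : Y.A n d = some w) :
    SS Y c w := ⟨n, hn, d, h⟩

theorem live_of_ne (hdis : Dis Y) {c d : C} (h : N Y c ≠ N Y d) {n : R} (hn : n ∈ N Y c) :
    ∃ w, Y.A n d = some w := by
  have h1 := hdis c d h n hn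
  rw [mem_N] at h1
  exact Option.ne_none_iff_exists'.1 h1

theorem M_eq_union (hp : Perf Y u) (hdis : Dis Y) {c d : C} (h : N Y c ≠ N Y d) :
    M Y c d = N Y c ∪ N Y d := by
  have hcd : c ≠ d := by
    rintro rfl
    exact h rfl
  symm
  apply Finset.eq_of_subset_of_card_le
  · exact Finset.union_subset (N_sub_M' hp hcd) (N_sub_M c d)
  · rw [M_card hp hcd, Finset.card_union_of_disjoint, N_card hp, N_card hp]
    rw [Finset.disjoint_left]
    exact hdis c d h

theorem N_eq_of_M_eq (hp : Perf Y u) (hdis : Dis Y) {c d e : C} (h : N Y c ≠ N Y d)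
    (h' : N Y c ≠ N Y e) (hM : M Y c d = M Y c e) : N Y d = N Y e := by
  rw [M_eq_union hp hdis h, M_eq_union hp hdis h'] at hM
  apply Finset.eq_of_subset_of_card_le
  · intro x hx
    have h1 : x ∈ N Y c ∪ N Y e := by
      rw [← hM]
      exact Finset.mem_union_right _ hx
    rcases Finset.mem_union.1 h1 with h2 | h2
    · exact absurd hx (hdis c d h x h2)
    · exact h2
  · rw [N_card hp, N_card hp]

/-- The labelling of the two dead rows of `c` in a state in which `c` is free. -/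
structure Lab (Y : Sys R C S) (c : C) (σ : S → R × C) (s1 s2 : S) : Prop where
  mem : σ ∈ Y.St
  fc : FC σ c
  ne : s1 ≠ s2
  h1 : (σ s1).1 ∈ N Y c
  h2 : (σ s2).1 ∈ N Y c

theorem Lab.symm {c : C} {σ : S → R × C} {s1 s2 : S} (h : Lab Y c σ s1 s2) :
    Lab Y c σ s2 s1 := ⟨h.mem, h.fc, h.ne.symm, h.h2, h.h1⟩

theorem Lab.rows_ne {c : C} {σ : S → R × C} {s1 s2 : S} (h : Lab Y c σ s1 s2) :
    (σ s1).1 ≠ (σ s2).1 := fun h' => h.ne (Y.rinj σ h.mem _ _ h')

theorem Lab.row (hp : Perf Y u) {c : C} {σ : S → R × C} {s1 s2 : S} (h : Lab Y c σ s1 s2)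
    {x : R} (hx : x ∈ N Y c) : x = (σ s1).1 ∨ x = (σ s2).1 :=
  N_eq_pair hp h.h1 h.h2 h.rows_ne hx

theorem Lab.sym (hp : Perf Y u) {c : C} {σ : S → R × C} {s1 s2 : S} (h : Lab Y c σ s1 s2)
    {w : S} (hw : SS Y c w) : w = s1 ∨ w = s2 := by
  rw [← ss_iff hp h.mem h.fc] at hw
  rcases h.row hp hw with h' | h'
  · exact Or.inl (Y.rinj σ h.mem _ _ h')
  · exact Or.inr (Y.rinj σ h.mem _ _ h')

theorem exists_lab (hp : Perf Y u) {c : C} {σ : S → R × C} (hσ : σ ∈ Y.St) (hc : FC σ c) :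
    ∃ s1 s2, Lab Y c σ s1 s2 := by
  have h2 : 0 < (N Y c).card := by rw [N_card hp]; omega
  obtain ⟨m, hm⟩ := Finset.card_pos.1 h2
  obtain ⟨s1, hs1⟩ := exists_sym_of_not_free (not_free_of_N hσ hc hm)
  obtain ⟨s2, h12, h3⟩ := other_sym hp hσ hc (s1 := s1) (by rw [hs1]; exact hm)
  exact ⟨s1, s2, hσ, hc, h12, by rw [hs1]; exact hm, h3⟩

/-- A column alive at the first row is straight or crossed. -/
theorem Lab.str (hp : Perf Y u) (hdis : Dis Y) {c : C} {σ : S → R × C} {s1 s2 : S}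
    (h : Lab Y c σ s1 s2) {d : C} (hd : Y.A (σ s1).1 d = some s1) :
    Y.A (σ s2).1 d = some s2 := by
  have hne : N Y c ≠ N Y d := by
    intro h'
    have h1 := h.h1
    rw [h', mem_N, hd] at h1
    exact absurd h1 (by simp)
  obtain ⟨w, hw⟩ := live_of_ne hdis hne h.h2
  rcases h.sym hp (ss_of c h.h2 hw) with rfl | rfl
  · exact absurd (Y.inj _ _ _ _ hd hw) h.rows_ne
  · exact hw

theorem Lab.cro (hp : Perf Y u) (hdis : Dis Y) {c : C} {σ : S → R × C} {s1 s2 : S}
    (h : Lab Y c σ s1 s2) {d : C} (hd : Y.A (σ s1).1 d = some s2) :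
    Y.A (σ s2).1 d = some s1 := by
  have hne : N Y c ≠ N Y d := by
    intro h'
    have h1 := h.h1
    rw [h', mem_N, hd] at h1
    exact absurd h1 (by simp)
  obtain ⟨w, hw⟩ := live_of_ne hdis hne h.h2
  rcases h.sym hp (ss_of c h.h2 hw) with rfl | rfl
  · exact hw
  · exact absurd (Y.inj _ _ _ _ hd hw) h.rows_ne

theorem Lab.str_or (hp : Perf Y u) {c : C} {σ : S → R × C} {s1 s2 : S}
    (h : Lab Y c σ s1 s2) {d : C} (hd : Y.A (σ s1).1 d ≠ none) :
    Y.A (σ s1).1 d = some s1 ∨ Y.A (σ s1).1 d = some s2 := by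
  obtain ⟨w, hw⟩ := Option.ne_none_iff_exists'.1 hd
  rcases h.sym hp (ss_of c h.h1 hw) with rfl | rfl
  · exact Or.inl hw
  · exact Or.inr hw

theorem ne_of_live {c d : C} {n : R} (hn : n ∈ N Y c) {w : S} (h : Y.A n d = some w) :
    N Y c ≠ N Y d := by
  intro h'
  rw [h', mem_N, h] at hn
  exact absurd hn (by simp)

/-- All straight columns have the same dead pair. -/
theorem Lab.class_aux (hp : Perf Y u) (hdis : Dis Y) {c : C} {σ : S → R × C} {s1 s2 : S}
    (h : Lab Y c σ s1 s2) {d : C} (hd : Y.A (σ s1).1 d = some s1) (hd1 : d ≠ (σ s1).2)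
    (hd2 : d ≠ (σ s2).2) : N Y d = N Y (σ s1).2 := by
  have hcd : c ≠ d := by
    rintro rfl
    have h1 := h.h1
    rw [mem_N, hd] at h1
    exact absurd h1 (by simp)
  have hnot : ∀ w, (σ w).1 ∈ N Y c → (σ w).2 ≠ d := by
    intro w hw
    rcases h.row hp hw with h' | h'
    · rw [Y.rinj σ h.mem _ _ h']
      exact hd1.symm
    · rw [Y.rinj σ h.mem _ _ h']
      exact hd2.symm
  obtain ⟨τ, h3, h4⟩ := (two_N' hp h.mem hcd h.fc hnot).1
  have e : τ s1 = σ s1 := frozen hp h.mem h.fc h.h1 h3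
  have h5 := (swap hp (h3.mem h.mem) (h3.fc (Finset.mem_singleton_self _) h.fc) h4 hcd (s := s1)
    (by rw [e]; exact h.h1) (by rw [e]; exact hd)).1
  rw [e] at h5
  exact (N_eq_of_M_eq hp hdis (ne_of_live h.h1 (Y.val σ h.mem s1)) (ne_of_live h.h1 hd) h5).symm

theorem Lab.class (hp : Perf Y u) (hdis : Dis Y) {c : C} {σ : S → R × C} {s1 s2 : S}
    (h : Lab Y c σ s1 s2) {X : Finset C} (hX : ∀ g, g ∈ X ↔ Y.A (σ s1).1 g = some s1)
    (hXc : 3 ≤ X.card) {d : C} (hd : d ∈ X) : N Y d = N Y (σ s2).2 := by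
  have h12 : ∀ g ∈ X, g ≠ (σ s1).2 → g ≠ (σ s2).2 →
      N Y g = N Y (σ s1).2 ∧ N Y g = N Y (σ s2).2 := by
    intro g hg h1 h2
    have hg' := (hX g).1 hg
    exact ⟨h.class_aux hp hdis hg' h1 h2,
      h.symm.class_aux hp hdis (h.str hp hdis hg') h2 h1⟩
  have h3 : ({(σ s1).2, (σ s2).2} : Finset C).card < X.card :=
    lt_of_le_of_lt Finset.card_le_two (by omega)
  obtain ⟨g0, h4, h5⟩ := Finset.exists_mem_notMem_of_card_lt_card h3
  simp only [Finset.mem_insert, Finset.mem_singleton, not_or] at h5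
  have h6 := h12 g0 h4 h5.1 h5.2
  by_cases h7 : d = (σ s1).2
  · rw [h7, ← h6.1, h6.2]
  · by_cases h8 : d = (σ s2).2
    · rw [h8]
    · exact (h12 d hd h7 h8).2

/-- A visit of the first dead row of `c`. -/
structure Vis (Y : Sys R C S) (c : C) (s1 s2 : S) (n1 : R) (p2 : R × C) (r : R)
    (ρ : S → R × C) : Prop where
  mem : ρ ∈ Y.St
  fr : FR ρ n1
  h1 : ρ s1 = (r, c)
  h2 : ρ s2 = p2

/-- Entering the first dead row. -/
theorem Lab.enter (hp : Perf Y u) {c : C} {σ : S → R × C} {s1 s2 : S} (h : Lab Y c σ s1 s2) :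
    ∃ r ρ, r ∉ N Y c ∧ Vis Y c s1 s2 (σ s1).1 (σ s2) r ρ ∧ FC ρ (σ s1).2 := by
  obtain ⟨r, hr⟩ := surj hp c s1
  have hrN : r ∉ N Y c := by
    rw [mem_N, hr]
    simp
  obtain ⟨σ', hR', hfr⟩ := reach_row hp h.mem h.fc hrN
  have hσ' := hR'.mem h.mem
  have hc' : FC σ' c := hR'.fc (Finset.mem_singleton_self _) h.fc
  have e1 : σ' s1 = σ s1 := frozen hp h.mem h.fc h.h1 hR'
  have e2 : σ' s2 = σ s2 := frozen hp h.mem h.fc h.h2 hR'
  refine ⟨r, upd σ' s1 (r, c), hrN, ⟨move hσ' hfr hc' hr, ?_, upd_same _ _ _, ?_⟩, ?_⟩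
  · rw [← e1]
    exact fr_upd hσ' hfr
  · rw [upd_ne _ _ h.ne.symm, e2]
  · rw [← e1]
    exact fc_upd hσ' hc'

/-- Leaving through a straight column. -/
theorem Vis.exit1 (hp : Perf Y u) {c : C} {σ ρ : S → R × C} {s1 s2 : S} {r : R}
    (h : Lab Y c σ s1 s2) (hv : Vis Y c s1 s2 (σ s1).1 (σ s2) r ρ) {g : C} (hg : FC ρ g)
    (hA : Y.A (σ s1).1 g = some s1) :
    Lab Y c (upd ρ s1 ((σ s1).1, g)) s1 s2 := by
  refine ⟨move hv.mem hv.fr hg hA, ?_, h.ne, ?_, ?_⟩
  · have h3 := fc_upd (s := s1) (x := (σ s1).1) hv.mem hg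
    rw [hv.h1] at h3
    exact h3
  · rw [upd_same]
    exact h.h1
  · rw [upd_ne _ _ h.ne.symm, hv.h2]
    exact h.h2

/-- Leaving through two crossed columns. -/
theorem Vis.exit2 (hp : Perf Y u) (hdis : Dis Y) {c : C} {σ ρ : S → R × C} {s1 s2 : S} {r : R}
    (h : Lab Y c σ s1 s2) (hv : Vis Y c s1 s2 (σ s1).1 (σ s2) r ρ) {g g' : C} (hg : FC ρ g)
    (hg' : FC ρ g') (hne : g' ≠ g) (hA : Y.A (σ s1).1 g = some s2)
    (hA' : Y.A (σ s1).1 g' = some s2) :
    Lab Y c (upd (upd ρ s2 ((σ s1).1, g)) s1 ((σ s2).1, g')) s2 s1 ∧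
      FC (upd (upd ρ s2 ((σ s1).1, g)) s1 ((σ s2).1, g')) (σ s2).2 ∧
      ∀ e, FC ρ e → e ≠ g → e ≠ g' →
        FC (upd (upd ρ s2 ((σ s1).1, g)) s1 ((σ s2).1, g')) e := by
  have hm1 := move hv.mem hv.fr hg hA
  have hf1 : FR (upd ρ s2 ((σ s1).1, g)) (σ s2).1 := by
    have h3 := fr_upd (s := s2) (c := g) hv.mem hv.fr
    rw [hv.h2] at h3
    exact h3
  have hc1 : FC (upd ρ s2 ((σ s1).1, g)) (σ s2).2 := by
    have h3 := fc_upd (s := s2) (x := (σ s1).1) hv.mem hg
    rw [hv.h2] at h3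
    exact h3
  have hg1 : FC (upd ρ s2 ((σ s1).1, g)) g' := fc_upd_ne hg' hne
  have hA1 := h.cro hp hdis hA'
  have hm2 := move hm1 hf1 hg1 hA1
  refine ⟨⟨hm2, ?_, h.ne.symm, ?_, ?_⟩, ?_, ?_⟩
  · have h3 := fc_upd (s := s1) (x := (σ s2).1) hm1 hg1
    rw [upd_ne _ _ h.ne, hv.h1] at h3
    exact h3
  · rw [upd_ne _ _ h.ne.symm, upd_same]
    exact h.h1
  · rw [upd_same]
    exact h.h2
  · refine fc_upd_ne hc1 ?_
    intro h'
    apply hg' s2
    rw [hv.h2, h']
  · intro e he h1 h2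
    exact fc_upd_ne (fc_upd_ne he h1) h2

/-- While the first dead row is parked, the visit goes on. -/
theorem Vis.reach (hp : Perf Y u) (hdis : Dis Y) {c : C} {σ ρ ρ' : S → R × C} {s1 s2 : S} {r : R}
    (h : Lab Y c σ s1 s2) (hv : Vis Y c s1 s2 (σ s1).1 (σ s2) r ρ)
    (hr : Reach Y {(σ s1).1} ∅ ρ ρ') : Vis Y c s1 s2 (σ s1).1 (σ s2) r ρ' := by
  induction hr with
  | refl => exact hv
  | step τ x g w h0 hx1 _ hx hg hA ih =>
    rw [Finset.mem_singleton] at hx1
    have hx2 : x ≠ (σ s2).1 := by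
      intro h'
      apply hx s2
      rw [ih.h2, h']
    have hlive : Y.A (σ s1).1 g ≠ none := by
      obtain ⟨v, hv'⟩ := live ih.mem ih.fr hg
      rw [hv']
      simp
    have hw : w ≠ s1 ∧ w ≠ s2 := by
      rcases h.str_or hp hlive with h1 | h1
      · have h2 := h.str hp hdis h1
        constructor
        · rintro rfl
          exact hx1 (Y.inj _ _ _ _ hA h1)
        · rintro rfl
          exact hx2 (Y.inj _ _ _ _ hA h2)
      · have h2 := h.cro hp hdis h1
        constructor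
        · rintro rfl
          exact hx2 (Y.inj _ _ _ _ hA h2)
        · rintro rfl
          exact hx1 (Y.inj _ _ _ _ hA h1)
    refine ⟨move ih.mem hx hg hA, fr_upd_ne ih.fr (Ne.symm hx1), ?_, ?_⟩
    · rw [upd_ne _ _ hw.1.symm, ih.h1]
    · rw [upd_ne _ _ hw.2.symm, ih.h2]

theorem disj_N_M (hp : Perf Y u) (hdis : Dis Y) {c d e : C} (hde : d ≠ e)
    (h1 : N Y c ≠ N Y d) (h2 : N Y c ≠ N Y e) {x : R} (hx : x ∈ N Y c) : x ∉ M Y d e := by
  rw [mem_M]
  rintro (h3 | ⟨w, h3, h4⟩)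
  · exact hdis c e h2 x hx (mem_N.2 h3)
  · exact ss_disj hp hdis h1 (ss_of c hx h3) h4

/-- The double swap: if a visit can be left both ways, the crossed columns have the same dead
pair as the straight ones. -/
theorem alpha_aux (hp : Perf Y u) (hdis : Dis Y) {c : C} {σ ρ : S → R × C} {s1 s2 : S} {r : R}
    (h : Lab Y c σ s1 s2) (hv : Vis Y c s1 s2 (σ s1).1 (σ s2) r ρ) {g1 k1 k2 : C}
    (hg1 : FC ρ g1) (hk1 : FC ρ k1) (hk2 : FC ρ k2) (hk : k2 ≠ k1)
    (hA : Y.A (σ s1).1 g1 = some s1) (hB1 : Y.A (σ s1).1 k1 = some s2)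
    (hB2 : Y.A (σ s1).1 k2 = some s2) (hcl : N Y g1 = N Y (σ s2).2) :
    N Y k1 = N Y g1 := by
  by_contra hcon
  have hLg := hv.exit1 hp h hg1 hA
  obtain ⟨hLh, hfe, hfo⟩ := hv.exit2 hp hdis h hk1 hk2 hk hB1 hB2
  set σg := upd ρ s1 ((σ s1).1, g1) with hσg
  set σh := upd (upd ρ s2 ((σ s1).1, k1)) s1 ((σ s2).1, k2) with hσh
  have hg1k1 : g1 ≠ k1 := by
    rintro rfl
    rw [hA] at hB1
    exact h.ne (Option.some.inj hB1)
  have hg1k2 : g1 ≠ k2 := by
    rintro rfl
    rw [hA] at hB2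
    exact h.ne (Option.some.inj hB2)
  have hfk1 : FC σg k1 := fc_upd_ne hk1 hg1k1.symm
  have hfk2 : FC σg k2 := fc_upd_ne hk2 hg1k2.symm
  have hfg1 : FC σh g1 := hfo g1 hg1 hg1k1 hg1k2
  have hck1 : c ≠ k1 := by
    rintro rfl
    have h1 := h.h1
    rw [mem_N, hB1] at h1
    exact absurd h1 (by simp)
  have hck2 : c ≠ k2 := by
    rintro rfl
    have h1 := h.h1
    rw [mem_N, hB2] at h1
    exact absurd h1 (by simp)
  have hAe : Y.A (σ s1).1 (σ s2).2 = some s1 :=
    h.symm.str hp hdis (Y.val σ h.mem s2)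
  have hg1e : g1 ≠ (σ s2).2 := by
    rintro h'
    apply hg1 s2
    rw [hv.h2, h']
  have hF := hp.H3 σg hLg.mem c k1 k2 hck1 hck2 hk.symm hLg.fc hfk1 hfk2
  set F := Fr Y ∅ {c, k1, k2} σg with hFdef
  have hI : (F.image (fun s => (σg s).1)).card ≤ 7 := le_trans Finset.card_image_le hF
  -- the frozen rows contain three sets
  have hsub1 : N Y c ⊆ F.image (fun s => (σg s).1) :=
    N_sub_image hLg.mem hLg.fc (by simp)
  have hsub2 : M Y g1 (σ s2).2 ⊆ F.image (fun s => (σg s).1) := by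
    intro x hx
    rcases cover (Y := Y) (P := ∅) (D := {c, k1, k2}) hLg.mem x with h1 | h1 | h1
    · simp at h1
    · exfalso
      rw [mem_Act] at h1
      obtain ⟨_, τ, h2, h3⟩ := h1
      have hNN : ∀ s, (σg s).1 ∈ N Y c → (σh s).1 ∈ N Y c := by
        intro s hs
        rcases hLg.row hp hs with h' | h'
        · rw [Y.rinj σg hLg.mem _ _ h']
          exact hLh.h2
        · rw [Y.rinj σg hLg.mem _ _ h']
          exact hLh.h1
      have h4 := transport hp (σ' := σh) (D' := {c, g1, (σ s2).2}) hLg.mem hLg.fc (by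
          intro s hs
          have hs1 : s ≠ s1 := by
            rintro rfl
            exact hs hLg.h1
          have hs2 : s ≠ s2 := by
            rintro rfl
            exact hs hLg.h2
          rw [hσg, hσh, upd_ne _ _ hs1, upd_ne _ _ hs2, upd_ne _ _ hs1]) hNN (by simp) (by
          intro s hs
          left
          rcases hLg.row hp hs with h' | h'
          · rw [Y.rinj σg hLg.mem _ _ h', hσh, upd_same]
            simp
          · rw [Y.rinj σg hLg.mem _ _ h', hσh, upd_ne _ _ h.ne.symm, upd_same]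
            simp) (by
          intro a ha
          simp only [Finset.mem_insert, Finset.mem_singleton] at ha
          rcases ha with rfl | rfl | rfl
          · exact Or.inl (by simp)
          · right
            refine ⟨s1, hLg.h1, ?_⟩
            rw [hσg, upd_same]
          · right
            refine ⟨s2, hLg.h2, ?_⟩
            rw [hσg, upd_ne _ _ h.ne.symm, hv.h2]) h2
      have h5 := transport_fr hp (σ' := σh) hLg.mem hLg.fc hNN (by simp) h2 h3
      exact M_frozen hp hLh.mem hg1e hfg1 hfe hx (by simp) (by simp) h4 h5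
    · exact h1
  have hsub3 : N Y k1 ⊆ F.image (fun s => (σg s).1) :=
    N_sub_image hLg.mem hfk1 (by simp)
  -- but they are disjoint
  have hNe : N Y k1 ≠ N Y (σ s2).2 := by
    rw [← hcl]
    exact hcon
  have hd1 : Disjoint (N Y k1) (M Y g1 (σ s2).2) := by
    rw [Finset.disjoint_left]
    intro x hx
    exact disj_N_M hp hdis hg1e hcon hNe hx
  have hd2 : Disjoint (N Y c) (N Y k1 ∪ M Y g1 (σ s2).2) := by
    rw [Finset.disjoint_union_right]
    constructor
    · rw [Finset.disjoint_left]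
      exact hdis c k1 (ne_of_live h.h1 hB1)
    · rw [Finset.disjoint_left]
      intro x hx
      exact disj_N_M hp hdis hg1e (ne_of_live h.h1 hA) (ne_of_live h.h1 hAe) hx
  have h8 : (N Y c ∪ (N Y k1 ∪ M Y g1 (σ s2).2)).card = 8 := by
    rw [Finset.card_union_of_disjoint hd2, Finset.card_union_of_disjoint hd1, N_card hp, N_card hp,
      M_card hp hg1e]
  have h9 := Finset.card_le_card (Finset.union_subset hsub1 (Finset.union_subset hsub3 hsub2))
  omega

/-- The main argument, with at least three straight columns. -/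
theorem caseA_aux (hp : Perf Y u) (hdis : Dis Y) {c : C} {σ : S → R × C} {s1 s2 : S}
    (h : Lab Y c σ s1 s2) {X : Finset C} (hX : ∀ g, g ∈ X ↔ Y.A (σ s1).1 g = some s1)
    (hXc : 3 ≤ X.card) : 3 * u ≤ Fintype.card S + 1 := by
  obtain ⟨r, ρ0, hr, hv0, hf0⟩ := h.enter hp
  have hu := hp.hu
  by_cases hal : ∃ ρ, Reach Y {(σ s1).1} ∅ ρ0 ρ ∧ ∃ g1 k1 k2, FC ρ g1 ∧ FC ρ k1 ∧ FC ρ k2 ∧
      k2 ≠ k1 ∧ Y.A (σ s1).1 g1 = some s1 ∧ Y.A (σ s1).1 k1 = some s2 ∧
      Y.A (σ s1).1 k2 = some s2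
  · -- case alpha
    obtain ⟨ρ, hρ, g1, k1, k2, hg1, hk1, hk2, hk, hA, hB1, hB2⟩ := hal
    have hv := hv0.reach hp hdis h hρ
    have hcl := h.class hp hdis hX hXc ((hX g1).2 hA)
    have e1 := alpha_aux hp hdis h hv hg1 hk1 hk2 hk hA hB1 hB2 hcl
    have e2 := alpha_aux hp hdis h hv hg1 hk2 hk1 hk.symm hA hB2 hB1 hcl
    obtain ⟨hLh, _, _⟩ := hv.exit2 hp hdis h hk1 hk2 hk hB1 hB2
    have hN : 0 < (N Y g1).card := by rw [N_card hp]; omega
    obtain ⟨m, hm⟩ := Finset.card_pos.1 hN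
    have hbig := large_of_common hp (σ s1).1 m (by
      intro d hd
      rw [Finset.mem_compl, mem_Dd] at hd
      rw [mem_Dd, ← mem_N]
      rcases h.str_or hp hd with h1 | h1
      · rw [h.class hp hdis hX hXc ((hX d).2 h1), ← hcl]
        exact hm
      · by_cases hd1 : d = k1
        · rw [hd1, e1]
          exact hm
        · by_cases hd2 : d = k2
          · rw [hd2, e2]
            exact hm
          · have h2 := hLh.class_aux hp hdis (d := d) (by
              rw [upd_ne _ _ h.ne.symm, upd_same]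
              exact h1) (by
              rw [upd_ne _ _ h.ne.symm, upd_same]
              exact hd1) (by
              rw [upd_same]
              exact hd2)
            rw [h2, upd_ne _ _ h.ne.symm, upd_same, e1]
            exact hm)
    omega
  · -- case beta
    push Not at hal
    have hlive : ∀ ρ, Reach Y {(σ s1).1} ∅ ρ0 ρ → ∀ g, FC ρ g →
        Y.A (σ s1).1 g = some s1 ∨ Y.A (σ s1).1 g = some s2 := by
      intro ρ hρ g hg
      have hv := hv0.reach hp hdis h hρ
      apply h.str_or hp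
      obtain ⟨w, hw⟩ := live hv.mem hv.fr hg
      rw [hw]
      simp
    -- at most one crossed free column
    have hone : ∀ ρ, Reach Y {(σ s1).1} ∅ ρ0 ρ → ∀ k1 k2, FC ρ k1 → FC ρ k2 →
        Y.A (σ s1).1 k1 = some s2 → Y.A (σ s1).1 k2 = some s2 → k1 = k2 := by
      intro ρ hρ
      induction hρ with
      | refl =>
        intro k1 k2 h1 h2 h3 h4
        by_contra hne
        exact hal ρ0 Reach.refl (σ s1).2 k1 k2 hf0 h1 h2 (Ne.symm hne) (Y.val σ h.mem s1) h3 h4
      | step τ x g w h0 hx1 hg0 hx hg hA ih =>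
        intro k1 k2 h1 h2 h3 h4
        by_contra hne
        have hstep := Reach.step τ x g w h0 hx1 hg0 hx hg hA
        have hv := hv0.reach hp hdis h hstep
        -- there is a straight free column
        have hstr : ∃ g1, FC (upd τ w (x, g)) g1 ∧ Y.A (σ s1).1 g1 = some s1 := by
          by_contra hno
          push Not at hno
          have hallc : ∀ e, FC (upd τ w (x, g)) e → Y.A (σ s1).1 e = some s2 := by
            intro e he
            rcases hlive _ hstep e he with h5 | h5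
            · exact absurd h5 (hno e he)
            · exact h5
          -- two columns free both before and after the step
          have hcard := card_FCs hp hv.mem
          have h6 : 1 < ((FCs (upd τ w (x, g))).erase (τ w).2).card := by
            have h7 := Finset.pred_card_le_card_erase (s := FCs (upd τ w (x, g))) (a := (τ w).2)
            omega
          obtain ⟨a, ha, b, hb, hab⟩ := Finset.one_lt_card.1 h6
          rw [Finset.mem_erase, mem_FCs] at ha hb
          have hold : ∀ e, e ≠ (τ w).2 → FC (upd τ w (x, g)) e → FC τ e := by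
            intro e he1 he2 s hs
            by_cases hsw : s = w
            · subst hsw
              exact he1 hs.symm
            · have h8 := he2 s
              rw [upd_ne _ _ hsw] at h8
              exact h8 hs
          exact hab (ih a b (hold a ha.1 ha.2) (hold b hb.1 hb.2) (hallc a ha.2) (hallc b hb.2))
        obtain ⟨g1, hg1, hg1A⟩ := hstr
        exact hal _ hstep g1 k1 k2 hg1 h1 h2 (Ne.symm hne) hg1A h3 h4
    -- choose the reserved set
    have hch : ∃ ρ D, Reach Y {(σ s1).1} ∅ ρ0 ρ ∧ D.card ≤ 1 ∧ (∀ e ∈ D, FC ρ e) ∧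
        ∀ ρ', Reach Y {(σ s1).1} D ρ ρ' → ∀ g, FC ρ' g → g ∉ D → Y.A (σ s1).1 g = some s1 := by
      by_cases hex : ∃ ρ, Reach Y {(σ s1).1} ∅ ρ0 ρ ∧ ∃ k, FC ρ k ∧ Y.A (σ s1).1 k = some s2
      · obtain ⟨ρ, hρ, k, hk1, hk2⟩ := hex
        refine ⟨ρ, {k}, hρ, by simp, by simpa using hk1, ?_⟩
        intro ρ' hρ' g hg hgD
        rw [Finset.mem_singleton] at hgD
        have h1 := hρ.trans (hρ'.mono (Finset.Subset.refl _) (Finset.empty_subset _))
        rcases hlive ρ' h1 g hg with h5 | h5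
        · exact h5
        · exact absurd (hone ρ' h1 g k hg (hρ'.fc (Finset.mem_singleton_self _) hk1) h5 hk2) hgD
      · push Not at hex
        refine ⟨ρ0, ∅, Reach.refl, by simp, by simp, ?_⟩
        intro ρ' hρ' g hg _
        rcases hlive ρ' hρ' g hg with h5 | h5
        · exact h5
        · exact absurd h5 (hex ρ' hρ' g hg)
    obtain ⟨ρ, D, hρ, hD1, hDf, hDs⟩ := hch
    have hv := hv0.reach hp hdis h hρ
    have hpark := park hp hv.mem (σ s1).1 D hDf
    set F := Fr Y {(σ s1).1} D ρ with hF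
    set T1 : Finset C := (Fᶜ).image (fun s => (ρ s).2) with hT1
    set T2 : Finset C := FCs ρ \ D with hT2
    have hT1X : T1 ⊆ X := by
      intro g hg
      rw [hT1, Finset.mem_image] at hg
      obtain ⟨s, hs, rfl⟩ := hg
      rw [Finset.mem_compl] at hs
      obtain ⟨τ, h1, _, h2⟩ := exists_free hv.mem hs
      rw [hX]
      exact hDs τ h1 _ h2 (fun h' => hDf _ h' s rfl)
    have hT2X : T2 ⊆ X := by
      intro g hg
      rw [hT2, Finset.mem_sdiff, mem_FCs] at hg
      rw [hX]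
      exact hDs ρ Reach.refl g hg.1 hg.2
    have hAe : Y.A (σ s1).1 (σ s2).2 = some s1 := h.symm.str hp hdis (Y.val σ h.mem s2)
    have he2X : (σ s2).2 ∈ X := (hX _).2 hAe
    have hs2F : s2 ∈ F := by
      rw [hF, mem_Fr]
      intro τ hτ
      have h1 := hv.reach hp hdis h (hτ.mono (Finset.Subset.refl _) (Finset.empty_subset _))
      rw [h1.h2, hv.h2]
    have he2T1 : (σ s2).2 ∉ T1 := by
      rw [hT1, Finset.mem_image]
      rintro ⟨s, hs, hs'⟩
      rw [Finset.mem_compl] at hs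
      rw [← hv.h2] at hs'
      rw [Y.cinj ρ hv.mem _ _ hs'] at hs
      exact hs hs2F
    have he2T2 : (σ s2).2 ∉ T2 := by
      rw [hT2, Finset.mem_sdiff, mem_FCs]
      rintro ⟨h1, _⟩
      apply h1 s2
      rw [hv.h2]
    have hdj : Disjoint T1 T2 := by
      rw [Finset.disjoint_left]
      intro g hg hg'
      rw [hT1, Finset.mem_image] at hg
      rw [hT2, Finset.mem_sdiff, mem_FCs] at hg'
      obtain ⟨s, _, hs⟩ := hg
      exact hg'.1 s hs
    have hc1 : T1.card = Fintype.card S - F.card := by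
      rw [hT1, card_image_col hv.mem, Finset.card_compl]
    have hc2 : T2.card = u - D.card := by
      rw [hT2, Finset.card_sdiff_of_subset (fun e he => mem_FCs.2 (hDf e he)),
        card_FCs hp hv.mem]
    have hXge : 2 * u - 1 ≤ X.card := by
      have h1 : insert (σ s2).2 (T1 ∪ T2) ⊆ X := by
        rw [Finset.insert_subset_iff]
        exact ⟨he2X, Finset.union_subset hT1X hT2X⟩
      have h2 := Finset.card_le_card h1
      rw [Finset.card_insert_of_notMem (by
        rw [Finset.mem_union, not_or]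
        exact ⟨he2T1, he2T2⟩), Finset.card_union_of_disjoint hdj, hc1, hc2] at h2
      have h3 : F.card ≤ Fintype.card S := Finset.card_le_univ _
      omega
    have hN : 0 < (N Y (σ s2).2).card := by rw [N_card hp]; omega
    obtain ⟨m, hm⟩ := Finset.card_pos.1 hN
    have hXD : X ⊆ Dd Y m := by
      intro d hd
      rw [mem_Dd, ← mem_N, h.class hp hdis hX hXc hd]
      exact hm
    have h1 := Finset.card_le_card hXD
    have h2 := deg hp m
    omega

theorem caseA (hp : Perf Y u) (hdis : Dis Y) : 3 * u ≤ Fintype.card S + 1 := by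
  obtain ⟨σ, hσ⟩ := hp.ne
  have hu := hp.hu
  obtain ⟨c, hc, _⟩ := exists_fc hp.hC (σ := σ) ∅ (by simp; omega)
  obtain ⟨s1, s2, h⟩ := exists_lab hp hσ hc
  set X : Finset C := univ.filter (fun g => Y.A (σ s1).1 g = some s1) with hXdef
  have hX : ∀ g, g ∈ X ↔ Y.A (σ s1).1 g = some s1 := by
    intro g
    simp [hXdef]
  by_cases hXc : 3 ≤ X.card
  · exact caseA_aux hp hdis h hX hXc
  · -- only two straight columns
    obtain ⟨r, ρ0, hr, hv0, hf0⟩ := h.enter hp
    have he1 : (σ s1).2 ∈ X := (hX _).2 (Y.val σ hσ s1)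
    have he2 : (σ s2).2 ∈ X := (hX _).2 (h.symm.str hp hdis (Y.val σ hσ s2))
    have he12 : (σ s1).2 ≠ (σ s2).2 := fun h' => h.ne (Y.cinj σ hσ _ _ h')
    have hXeq : ({(σ s1).2, (σ s2).2} : Finset C) = X := by
      apply Finset.eq_of_subset_of_card_le
      · intro a ha
        simp only [Finset.mem_insert, Finset.mem_singleton] at ha
        rcases ha with rfl | rfl
        · exact he1
        · exact he2
      · rw [Finset.card_pair he12]
        omega
    have h6 : 1 < ((FCs ρ0).erase (σ s1).2).card := by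
      have h7 := Finset.pred_card_le_card_erase (s := FCs ρ0) (a := (σ s1).2)
      rw [card_FCs hp hv0.mem] at h7
      omega
    obtain ⟨a, ha, b, hb, hab⟩ := Finset.one_lt_card.1 h6
    rw [Finset.mem_erase, mem_FCs] at ha hb
    have hcr : ∀ e, e ≠ (σ s1).2 → FC ρ0 e → Y.A (σ s1).1 e = some s2 := by
      intro e he hfe
      obtain ⟨w, hw⟩ := live hv0.mem hv0.fr hfe
      rcases h.str_or hp (d := e) (by rw [hw]; simp) with h1 | h1
      · exfalso
        have h2 := (hX e).2 h1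
        rw [← hXeq] at h2
        simp only [Finset.mem_insert, Finset.mem_singleton] at h2
        rcases h2 with h2 | h2
        · exact he h2
        · apply hfe s2
          rw [hv0.h2, h2]
      · exact h1
    obtain ⟨hLh, _, _⟩ := hv0.exit2 hp hdis h ha.2 hb.2 hab.symm (hcr a ha.1 ha.2)
      (hcr b hb.1 hb.2)
    set X' : Finset C := univ.filter (fun g => Y.A (σ s1).1 g = some s2) with hX'def
    have hX' : ∀ g, g ∈ X' ↔
        Y.A ((upd (upd ρ0 s2 ((σ s1).1, a)) s1 ((σ s2).1, b)) s2).1 g = some s2 := by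
      intro g
      rw [upd_ne _ _ h.ne.symm, upd_same]
      simp [hX'def]
    have hX'c : 3 ≤ X'.card := by
      have h1 := card_compl_Dd hp (σ s1).1
      have h2 : (Dd Y (σ s1).1)ᶜ ⊆ X ∪ X' := by
        intro d hd
        rw [Finset.mem_compl, mem_Dd] at hd
        rw [Finset.mem_union]
        rcases h.str_or hp hd with h3 | h3
        · exact Or.inl ((hX d).2 h3)
        · right
          simp only [hX'def, Finset.mem_filter, Finset.mem_univ, true_and]
          exact h3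
      have h3 := le_trans (Finset.card_le_card h2) (Finset.card_union_le _ _)
      omega
    exact caseA_aux hp hdis hLh hX' hX'c

/-- The core theorem. -/
theorem core (hp : Perf Y u) : 3 * u ≤ Fintype.card S + 1 := by
  by_cases hdis : Dis Y
  · exact caseA hp hdis
  · unfold Dis at hdis
    push Not at hdis
    obtain ⟨c, d, hne, n, h1, h2⟩ := hdis
    have := caseB hp hne h1 h2
    omega

end

end StE5
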