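import Pool.Agent.StE5.Core

set_option autoImplicit false
set_option linter.unusedSectionVars false

/-!
If the dead pairs of two columns share exactly one row then the system is large.
-/

namespace StE5

open scoped Classical
open Finset

noncomputable section

variable {R C S : Type} {Y : Sys R C S} [Fintype R] [Fintype C] [Fintype S] {u : ℕ}

theorem inter_of_ne (hp : Perf Y u) {c1 c2 : C} (hne : N Y c1 ≠ N Y c2) {n x : R}
    (h1 : n ∈ N Y c1) (h2 : n ∈ N Y c2) (h3 : x ∈ N Y c1) (h4 : x ∈ N Y c2) : x = n := by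
  by_contra h
  apply hne
  have e1 : ({x, n} : Finset R) = N Y c1 := by
    apply Finset.eq_of_subset_of_card_le
    · intro a ha
      simp only [Finset.mem_insert, Finset.mem_singleton] at ha
      rcases ha with rfl | rfl
      · exact h3
      · exact h1
    · rw [N_card hp, Finset.card_pair h]
  have e2 : ({x, n} : Finset R) = N Y c2 := by
    apply Finset.eq_of_subset_of_card_le
    · intro a ha
      simp only [Finset.mem_insert, Finset.mem_singleton] at ha
      rcases ha with rfl | rfl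
      · exact h4
      · exact h2
    · rw [N_card hp, Finset.card_pair h]
  rw [← e1, ← e2]

/-- All columns alive at `n`, except possibly one, have the same set `M c g`. -/
theorem link (hp : Perf Y u) {c : C} {n : R} (hn : n ∈ N Y c) {s : S}
    (ha : ∀ g w, Y.A n g = some w → w = s) {g : C} (hg : Y.A n g = some s) :
    ∃ e, ∀ g', Y.A n g' = some s → g' ≠ e → M Y c g' = M Y c g := by
  have hcg : c ≠ g := by
    rintro rfl
    rw [mem_N, hg] at hn
    exact absurd hn (by simp)
  obtain ⟨σ, hσ, hc, hgf⟩ := P4 hp hcg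
  obtain ⟨s0, hs0⟩ := exists_sym_of_not_free (not_free_of_N hσ hc hn)
  have h1 := Y.val σ hσ s0
  rw [hs0] at h1
  obtain rfl := ha _ _ h1
  obtain ⟨_, τ, hτ, hc', _, hτs⟩ := swap hp hσ hc hgf hcg (s := s0) (by rw [hs0]; exact hn)
    (by rw [hs0]; exact hg)
  rw [hs0] at hτs
  have hτN : (τ s0).1 ∈ N Y c := by rw [hτs]; exact hn
  obtain ⟨s2, h12, h2⟩ := other_sym hp hτ hc' hτN
  refine ⟨(τ s2).2, ?_⟩
  intro g' hg' hne
  by_cases hgg : g' = g
  · rw [hgg]
  have hcg' : c ≠ g' := by
    rintro rfl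
    rw [mem_N, hg'] at hn
    exact absurd hn (by simp)
  have hnot : ∀ w, (τ w).1 ∈ N Y c → (τ w).2 ≠ g' := by
    intro w hw
    have hn12 : (τ s0).1 ≠ (τ s2).1 := fun h => h12 (Y.rinj τ hτ _ _ h)
    rcases N_eq_pair hp hτN h2 hn12 hw with h | h
    · rw [Y.rinj τ hτ _ _ h, hτs]
      exact fun h => hgg h.symm
    · rw [Y.rinj τ hτ _ _ h]
      exact fun h => hne h.symm
  obtain ⟨τ', h3, h4⟩ := (two_N' hp hτ hcg' hc' hnot).1
  have e : τ' s0 = τ s0 := frozen hp hτ hc' hτN h3
  have h5 := (swap hp (h3.mem hτ) (h3.fc (Finset.mem_singleton_self _) hc') h4 hcg' (s := s0)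
    (by rw [e]; exact hτN) (by rw [e, hτs]; exact hg')).1
  rw [e, hτs] at h5
  exact h5.symm

theorem link_all (hp : Perf Y u) {c : C} {n : R} (hn : n ∈ N Y c) {s : S}
    (ha : ∀ g w, Y.A n g = some w → w = s) {X : Finset C}
    (hX : ∀ g, g ∈ X ↔ Y.A n g = some s) (hXc : 3 ≤ X.card) {g g' : C} (hg : g ∈ X)
    (hg' : g' ∈ X) : M Y c g = M Y c g' := by
  obtain ⟨e, he⟩ := link hp hn ha ((hX g).1 hg)
  obtain ⟨e', he'⟩ := link hp hn ha ((hX g').1 hg')
  by_cases h1 : g' = e
  · by_cases h2 : g = e'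
    · have h3 : ({g, g'} : Finset C).card < X.card := lt_of_le_of_lt Finset.card_le_two (by omega)
      obtain ⟨g'', h4, h5⟩ := Finset.exists_mem_notMem_of_card_lt_card h3
      simp only [Finset.mem_insert, Finset.mem_singleton, not_or] at h5
      rw [← he g'' ((hX g'').1 h4) (by rw [← h1]; exact h5.2),
        ← he' g'' ((hX g'').1 h4) (by rw [← h2]; exact h5.1)]
    · exact he' g ((hX g).1 hg) h2
  · exact (he g' ((hX g').1 hg') h1).symm

theorem card_compl_Dd (hp : Perf Y u) (n : R) : 2 * u ≤ ((Dd Y n)ᶜ).card := by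
  have h1 := deg hp n
  rw [Finset.card_compl, hp.hC]
  omega

/-- If all columns alive at `n` are dead in a common row then the system is large. -/
theorem large_of_common (hp : Perf Y u) (n m : R) (h : (Dd Y n)ᶜ ⊆ Dd Y m) :
    3 * u ≤ Fintype.card S := by
  have h1 := deg hp n
  have h2 := deg hp m
  have h3 := Finset.card_le_card h
  rw [Finset.card_compl, hp.hC] at h3
  omega

theorem caseB (hp : Perf Y u) {c1 c2 : C} (hne : N Y c1 ≠ N Y c2) {n : R} (hn1 : n ∈ N Y c1)
    (hn2 : n ∈ N Y c2) : 3 * u ≤ Fintype.card S := by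
  have hcc : c1 ≠ c2 := by
    rintro rfl
    exact hne rfl
  obtain ⟨σ, hσ, hc1, hc2⟩ := P4 hp hcc
  obtain ⟨s, hs⟩ := exists_sym_of_not_free (not_free_of_N hσ hc1 hn1)
  have hboth : ∀ w, (σ w).1 ∈ N Y c1 → (σ w).1 ∈ N Y c2 → w = s := by
    intro w h1 h2
    apply Y.rinj σ hσ
    rw [hs]
    exact inter_of_ne hp hne hn1 hn2 h1 h2
  have ha : ∀ g w, Y.A n g = some w → w = s := by
    intro g w hw
    exact hboth w (L1 hp hσ hc1 hn1 hw) (L1 hp hσ hc2 hn2 hw)
  set X : Finset C := (Dd Y n)ᶜ with hXdef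
  have hX : ∀ g, g ∈ X ↔ Y.A n g = some s := by
    intro g
    rw [hXdef, Finset.mem_compl, mem_Dd]
    constructor
    · intro h
      obtain ⟨w, hw⟩ := Option.ne_none_iff_exists'.1 h
      rw [hw, ha g w hw]
    · intro h
      rw [h]
      simp
  have hXc : 3 ≤ X.card := le_trans (by have := hp.hu; omega) (card_compl_Dd hp n)
  have hNg : ∀ g ∈ X, N Y g = (M Y c1 g ∩ M Y c2 g).erase n := by
    intro g hg
    have hAg := (hX g).1 hg
    ext x
    rw [Finset.mem_erase, Finset.mem_inter, mem_M, mem_M, mem_N]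
    constructor
    · intro h
      refine ⟨?_, Or.inl h, Or.inl h⟩
      rintro rfl
      rw [hAg] at h
      exact absurd h (by simp)
    · rintro ⟨hxn, h1 | ⟨w, h1, h2⟩, h3⟩
      · exact h1
      · rcases h3 with h3 | ⟨w', h3, h4⟩
        · exact h3
        · rw [h1] at h3
          obtain rfl := Option.some.inj h3
          rw [← ss_iff hp hσ hc1] at h2
          rw [← ss_iff hp hσ hc2] at h4
          obtain rfl := hboth w h2 h4
          exact absurd (Y.inj _ _ _ _ h1 hAg) hxn
  obtain ⟨g0, hg0⟩ : X.Nonempty := Finset.card_pos.1 (by omega)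
  have hN0 : 0 < (N Y g0).card := by rw [N_card hp]; omega
  obtain ⟨m, hm⟩ := Finset.card_pos.1 hN0
  apply large_of_common hp n m
  intro g hg
  rw [mem_Dd, ← mem_N, hNg g hg, link_all hp hn1 ha hX hXc hg hg0,
    link_all hp hn2 ha hX hXc hg hg0, ← hNg g0 hg0]
  exact hm

end

end StE5
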