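import Pool.Agent.StE5.Sub

set_option autoImplicit false
set_option linter.unusedSectionVars false

/-!
Perfect systems: reserving one free column freezes exactly two rows, reserving two free columns
freezes exactly four rows.  The two dead rows of a column, the local structure lemma and the
swap lemma.
-/

namespace StE5

open scoped Classical
open Finset

noncomputable section

variable {R C S : Type} {Y : Sys R C S} [Fintype R] [Fintype C] [Fintype S] {u : ℕ}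

/-- The assumptions of the core argument. -/
structure Perf (Y : Sys R C S) (u : ℕ) : Prop where
  ne : Y.St.Nonempty
  hR : Fintype.card R = Fintype.card S + 2
  hC : Fintype.card C = Fintype.card S + u
  hu : 3 ≤ u
  H0 : ∀ σ ∈ Y.St, Fr Y ∅ ∅ σ = ∅
  H1 : ∀ σ ∈ Y.St, ∀ c, FC σ c → (Fr Y ∅ {c} σ).card ≤ 2
  H2 : ∀ σ ∈ Y.St, ∀ c d, c ≠ d → FC σ c → FC σ d → (Fr Y ∅ {c, d} σ).card ≤ 4
  H3 : ∀ σ ∈ Y.St, ∀ c d e, c ≠ d → c ≠ e → d ≠ e → FC σ c → FC σ d → FC σ e →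
    (Fr Y ∅ {c, d, e} σ).card ≤ 7

/-- The dead rows of a column. -/
def N (Y : Sys R C S) (c : C) : Finset R := univ.filter (fun x => Y.A x c = none)

theorem mem_N {c : C} {x : R} : x ∈ N Y c ↔ Y.A x c = none := by simp [N]

theorem not_free_of_N {σ : S → R × C} (hσ : σ ∈ Y.St) {c : C} (hc : FC σ c) {n : R}
    (hn : n ∈ N Y c) : ¬ FR σ n := by
  intro h
  obtain ⟨s, hs⟩ := live hσ h hc
  rw [mem_N, hs] at hn
  exact absurd hn (by simp)

theorem exists_sym_of_not_free {σ : S → R × C} {n : R} (h : ¬ FR σ n) : ∃ s, (σ s).1 = n := by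
  unfold FR at h
  push Not at h
  exact h

/-- The live cells of a column inject into the symbols. -/
theorem card_live_le (c : C) (Q : Finset R) (T : Finset S)
    (h : ∀ x ∈ Q, ∃ s, Y.A x c = some s ∧ s ∈ T) : Q.card ≤ T.card := by
  refine le_trans ?_ (Finset.card_image_le (s := T) (f := some))
  apply Finset.card_le_card_of_injOn (fun x => Y.A x c)
  · intro x hx
    obtain ⟨s, h1, h2⟩ := h x hx
    rw [Finset.mem_coe, Finset.mem_image]
    exact ⟨s, h2, h1.symm⟩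
  · intro x hx y hy hxy
    obtain ⟨s, h1, _⟩ := h x hx
    simp only at hxy
    rw [h1] at hxy
    exact Y.inj c x y _ h1 hxy.symm

theorem exists_col (hp : Perf Y u) (c : C) : ∃ σ ∈ Y.St, FC σ c := by
  obtain ⟨σ, hσ⟩ := hp.ne
  by_cases hc : FC σ c
  · exact ⟨σ, hσ, hc⟩
  · unfold FC at hc
    push Not at hc
    obtain ⟨s, hs⟩ := hc
    have h1 : s ∉ Fr Y ∅ ∅ σ := by rw [hp.H0 σ hσ]; simp
    obtain ⟨τ, h2, _, h3⟩ := exists_free hσ h1
    rw [hs] at h3
    exact ⟨τ, h2.mem hσ, h3⟩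

theorem exists_row (hp : Perf Y u) (x : R) : ∃ σ ∈ Y.St, FR σ x := by
  obtain ⟨σ, hσ⟩ := hp.ne
  by_cases hc : FR σ x
  · exact ⟨σ, hσ, hc⟩
  · obtain ⟨s, hs⟩ := exists_sym_of_not_free hc
    have h1 : s ∉ Fr Y ∅ ∅ σ := by rw [hp.H0 σ hσ]; simp
    obtain ⟨τ, h2, h3, _⟩ := exists_free hσ h1
    rw [hs] at h3
    exact ⟨τ, h2.mem hσ, h3⟩

theorem N_sub_image {D : Finset C} {σ : S → R × C} (hσ : σ ∈ Y.St) {c : C} (hc : FC σ c)
    (hcD : c ∈ D) : N Y c ⊆ (Fr Y ∅ D σ).image (fun s => (σ s).1) := by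
  intro n hn
  rcases cover (Y := Y) (P := ∅) (D := D) hσ n with h | h | h
  · simp at h
  · rw [mem_Act] at h
    obtain ⟨_, τ, h1, h2⟩ := h
    exact absurd h2 (not_free_of_N (h1.mem hσ) (h1.fc hcD hc) hn)
  · exact h

theorem two_le_N (hp : Perf Y u) (c : C) : 2 ≤ (N Y c).card := by
  have h1 := card_live_le (Y := Y) c (N Y c)ᶜ univ (by
    intro x hx
    rw [Finset.mem_compl, mem_N] at hx
    obtain ⟨s, hs⟩ := Option.ne_none_iff_exists'.1 hx
    exact ⟨s, hs, Finset.mem_univ _⟩)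
  rw [Finset.card_compl] at h1
  have h2 : (univ : Finset S).card = Fintype.card S := rfl
  have h3 := hp.hR
  omega

theorem image_eq_N (hp : Perf Y u) {σ : S → R × C} (hσ : σ ∈ Y.St) {c : C} (hc : FC σ c) :
    (Fr Y ∅ {c} σ).image (fun s => (σ s).1) = N Y c := by
  symm
  apply Finset.eq_of_subset_of_card_le (N_sub_image hσ hc (Finset.mem_singleton_self c))
  have h1 := two_le_N hp c
  have h2 := hp.H1 σ hσ c hc
  exact le_trans Finset.card_image_le (le_trans h2 h1)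

theorem N_card (hp : Perf Y u) (c : C) : (N Y c).card = 2 := by
  obtain ⟨σ, hσ, hc⟩ := exists_col hp c
  have h1 := two_le_N hp c
  have h2 : (N Y c).card ≤ 2 := by
    rw [← image_eq_N hp hσ hc]
    exact le_trans Finset.card_image_le (hp.H1 σ hσ c hc)
  omega

theorem surj (hp : Perf Y u) (c : C) (s : S) : ∃ x, Y.A x c = some s := by
  by_contra hcon
  push Not at hcon
  have h1 := card_live_le (Y := Y) c (N Y c)ᶜ (univ.erase s) (by
    intro x hx
    rw [Finset.mem_compl, mem_N] at hx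
    obtain ⟨s', hs⟩ := Option.ne_none_iff_exists'.1 hx
    refine ⟨s', hs, ?_⟩
    rw [Finset.mem_erase]
    refine ⟨?_, Finset.mem_univ _⟩
    rintro rfl
    exact hcon x hs)
  rw [Finset.card_compl, Finset.card_erase_of_mem (Finset.mem_univ _), N_card hp] at h1
  have h2 : (univ : Finset S).card = Fintype.card S := rfl
  have h3 := hp.hR
  have h4 : 0 < (univ : Finset S).card := Finset.card_pos.2 ⟨s, Finset.mem_univ _⟩
  omega

theorem mem_fr_iff (hp : Perf Y u) {σ : S → R × C} (hσ : σ ∈ Y.St) {c : C} (hc : FC σ c)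
    {s : S} : s ∈ Fr Y ∅ {c} σ ↔ (σ s).1 ∈ N Y c := by
  rw [← image_eq_N hp hσ hc, Finset.mem_image]
  constructor
  · intro h
    exact ⟨s, h, rfl⟩
  · rintro ⟨s', h, h'⟩
    rw [← Y.rinj σ hσ _ _ h']
    exact h

theorem frozen (hp : Perf Y u) {σ τ : S → R × C} (hσ : σ ∈ Y.St) {c : C} (hc : FC σ c)
    {s : S} (hs : (σ s).1 ∈ N Y c) (h : Reach Y ∅ {c} σ τ) : τ s = σ s :=
  mem_Fr.1 ((mem_fr_iff hp hσ hc).2 hs) τ h

theorem frozen' (hp : Perf Y u) {σ τ : S → R × C} (hσ : σ ∈ Y.St) {c : C} (hc : FC σ c)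
    {D : Finset C} (hcD : c ∈ D) {s : S} (hs : (σ s).1 ∈ N Y c) (h : Reach Y ∅ D σ τ) :
    τ s = σ s :=
  frozen hp hσ hc hs (h.mono (Finset.Subset.refl _) (Finset.singleton_subset_iff.2 hcD))

theorem frozen_iff (hp : Perf Y u) {σ τ : S → R × C} (hσ : σ ∈ Y.St) {c : C} (hc : FC σ c)
    {D : Finset C} (hcD : c ∈ D) {s : S} (h : Reach Y ∅ D σ τ) :
    (τ s).1 ∈ N Y c ↔ (σ s).1 ∈ N Y c := by
  constructor
  · intro h1
    obtain ⟨s', hs'⟩ := exists_sym_of_not_free (not_free_of_N hσ hc h1)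
    have h2 := frozen' hp hσ hc hcD (s := s') (by rw [hs']; exact h1) h
    have h3 : s' = s := by
      apply Y.rinj τ (h.mem hσ)
      rw [h2, hs']
    rw [← h3, hs', ← hs', ← h2, h3]
    exact h1
  · intro h1
    rw [frozen' hp hσ hc hcD h1 h]
    exact h1

theorem reach_row (hp : Perf Y u) {σ : S → R × C} (hσ : σ ∈ Y.St) {c : C} (hc : FC σ c)
    {x : R} (hx : x ∉ N Y c) : ∃ τ, Reach Y ∅ {c} σ τ ∧ FR τ x := by
  rcases cover (Y := Y) (P := ∅) (D := {c}) hσ x with h | h | h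
  · simp at h
  · rw [mem_Act] at h
    exact h.2
  · rw [image_eq_N hp hσ hc] at h
    exact absurd h hx

/-- Two reserved columns. -/
theorem two_aux (hp : Perf Y u) {σ : S → R × C} (hσ : σ ∈ Y.St) {c d : C} (hcd : c ≠ d)
    (hc : FC σ c) (hd : FC σ d) :
    (Fr Y ∅ {c, d} σ).image (fun s => (σ s).1) =
      univ.filter (fun x => Y.A x d = none ∨ ∃ s, Y.A x d = some s ∧ (σ s).1 ∈ N Y c) ∧
    (univ.filter (fun x => Y.A x d = none ∨ ∃ s, Y.A x d = some s ∧
      (σ s).1 ∈ N Y c)).card = 4 := by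
  set Q := univ.filter (fun x => Y.A x d = none ∨ ∃ s, Y.A x d = some s ∧ (σ s).1 ∈ N Y c)
    with hQ
  have herase : ({c, d} : Finset C).erase d = {c} := by
    ext a
    simp only [Finset.mem_erase, Finset.mem_insert, Finset.mem_singleton]
    constructor
    · rintro ⟨h1, h2 | h2⟩
      · exact h2
      · exact absurd h2 h1
    · rintro rfl
      exact ⟨hcd, Or.inl rfl⟩
  have h1 : Q ⊆ (Fr Y ∅ {c, d} σ).image (fun s => (σ s).1) := by
    intro x hx
    rw [hQ, Finset.mem_filter] at hx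
    rcases cover (Y := Y) (P := ∅) (D := {c, d}) hσ x with h | h | h
    · simp at h
    · rw [mem_Act] at h
      obtain ⟨_, τ, h2, h3⟩ := h
      obtain ⟨s, h4, h5⟩ := key_res hσ hd (by simp) h2 (by simp) h3
      rw [herase, mem_fr_iff hp hσ hc] at h5
      rcases hx.2 with h6 | ⟨s', h6, h7⟩
      · rw [h4] at h6
        exact absurd h6 (by simp)
      · rw [h4] at h6
        rw [← Option.some.inj h6] at h7
        exact absurd h7 h5
    · exact h
  have h2 : ((Fr Y ∅ {c, d} σ).image (fun s => (σ s).1)).card ≤ 4 :=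
    le_trans Finset.card_image_le (hp.H2 σ hσ c d hcd hc hd)
  have h3 : 4 ≤ Q.card := by
    have h4 := card_live_le (Y := Y) d Qᶜ ((Fr Y ∅ {c} σ)ᶜ) (by
      intro x hx
      rw [Finset.mem_compl, hQ, Finset.mem_filter] at hx
      push Not at hx
      have h5 := hx (Finset.mem_univ _)
      obtain ⟨s', hs⟩ := Option.ne_none_iff_exists'.1 h5.1
      refine ⟨s', hs, ?_⟩
      rw [Finset.mem_compl, mem_fr_iff hp hσ hc]
      exact h5.2 s' hs)
    have h5 : (Fr Y ∅ {c} σ).card = 2 := by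
      rw [← card_image_row hσ, image_eq_N hp hσ hc, N_card hp]
    rw [Finset.card_compl, Finset.card_compl, h5] at h4
    have h6 := hp.hR
    have h7 : (Fr Y ∅ {c} σ).card ≤ Fintype.card S := Finset.card_le_univ _
    omega
  have h4 := Finset.eq_of_subset_of_card_le h1 (le_trans h2 h3)
  refine ⟨h4.symm, ?_⟩
  rw [← h4] at h2
  omega

theorem two_N (hp : Perf Y u) {σ : S → R × C} (hσ : σ ∈ Y.St) {c d : C} (hcd : c ≠ d)
    (hc : FC σ c) (hd : FC σ d) {n : R} (hn : n ∈ N Y c) {s : S} (hs : Y.A n d = some s) :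
    (σ s).1 ∈ N Y c := by
  have h1 := N_sub_image (D := {c, d}) hσ hc (by simp) hn
  rw [(two_aux hp hσ hcd hc hd).1, Finset.mem_filter] at h1
  rcases h1.2 with h2 | ⟨s', h2, h3⟩
  · rw [hs] at h2
    exact absurd h2 (by simp)
  · rw [hs] at h2
    rw [Option.some.inj h2]
    exact h3

theorem two_N' (hp : Perf Y u) {σ : S → R × C} (hσ : σ ∈ Y.St) {c d : C} (hcd : c ≠ d)
    (hc : FC σ c) (hd : ∀ s, (σ s).1 ∈ N Y c → (σ s).2 ≠ d) :
    (∃ τ, Reach Y ∅ {c} σ τ ∧ FC τ d) ∧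
    ∀ n ∈ N Y c, ∀ s, Y.A n d = some s → (σ s).1 ∈ N Y c := by
  have h1 : ∃ τ, Reach Y ∅ {c} σ τ ∧ FC τ d := by
    by_cases h : FC σ d
    · exact ⟨σ, Reach.refl, h⟩
    · unfold FC at h
      push Not at h
      obtain ⟨s, hs⟩ := h
      have h2 : s ∉ Fr Y ∅ {c} σ := by
        rw [mem_fr_iff hp hσ hc]
        intro h3
        exact hd s h3 hs
      obtain ⟨τ, h3, _, h4⟩ := exists_free hσ h2
      rw [hs] at h4
      exact ⟨τ, h3, h4⟩
  refine ⟨h1, ?_⟩
  obtain ⟨τ, h2, h3⟩ := h1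
  intro n hn s hs
  have h4 := two_N hp (h2.mem hσ) hcd (h2.fc (Finset.mem_singleton_self _) hc) h3 hn hs
  rwa [frozen_iff hp hσ hc (Finset.mem_singleton_self _) h2] at h4

theorem N_eq_pair (hp : Perf Y u) {c : C} {n m : R} (hn : n ∈ N Y c) (hm : m ∈ N Y c)
    (hnm : n ≠ m) {x : R} (hx : x ∈ N Y c) : x = n ∨ x = m := by
  by_contra h
  push Not at h
  have h1 : ({n, m, x} : Finset R) ⊆ N Y c := by
    intro a ha
    simp only [Finset.mem_insert, Finset.mem_singleton] at ha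
    rcases ha with rfl | rfl | rfl
    · exact hn
    · exact hm
    · exact hx
  have h2 : ({n, m, x} : Finset R).card = 3 := by
    rw [Finset.card_eq_three]
    exact ⟨n, m, x, hnm, h.1.symm, h.2.symm, rfl⟩
  have h3 := Finset.card_le_card h1
  rw [h2, N_card hp] at h3
  omega

/-- The column of a cell in a dead row of `c` can be freed together with `c`. -/
theorem L1aux (hp : Perf Y u) {σ : S → R × C} (hσ : σ ∈ Y.St) {c : C} (hc : FC σ c)
    {s1 s2 : S} (h12 : s1 ≠ s2) (h1 : (σ s1).1 ∈ N Y c) (h2 : (σ s2).1 ∈ N Y c) :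
    ∃ τ ∈ Y.St, FC τ c ∧ FC τ (σ s1).2 ∧ ∀ s, (τ s).1 ∈ N Y c ↔ (σ s).1 ∈ N Y c := by
  obtain ⟨r, hr⟩ := surj hp c s1
  have hrN : r ∉ N Y c := by
    rw [mem_N, hr]
    simp
  obtain ⟨σ', hR', hfr⟩ := reach_row hp hσ hc hrN
  have hσ' := hR'.mem hσ
  have hc' : FC σ' c := hR'.fc (Finset.mem_singleton_self _) hc
  have e1 : σ' s1 = σ s1 := frozen hp hσ hc h1 hR'
  have e2 : σ' s2 = σ s2 := frozen hp hσ hc h2 hR'
  have hiff : ∀ s, (σ' s).1 ∈ N Y c ↔ (σ s).1 ∈ N Y c := fun s =>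
    frozen_iff hp hσ hc (Finset.mem_singleton_self _) hR'
  rw [← e1] at h1 ⊢
  rw [← e2] at h2
  have hn12 : (σ' s1).1 ≠ (σ' s2).1 := fun h => h12 (Y.rinj σ' hσ' _ _ h)
  have hpair : ∀ w, (σ' w).1 ∈ N Y c → w = s1 ∨ w = s2 := by
    intro w hw
    rcases N_eq_pair hp h1 h2 hn12 hw with h | h
    · exact Or.inl (Y.rinj σ' hσ' _ _ h)
    · exact Or.inr (Y.rinj σ' hσ' _ _ h)
  -- use `c` in the row `r`
  have hσ1 := move hσ' hfr hc' hr
  have hfr1 : FR (upd σ' s1 (r, c)) (σ' s1).1 := fr_upd hσ' hfr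
  have hfc1 : FC (upd σ' s1 (r, c)) (σ' s1).2 := fc_upd hσ' hc'
  have hu := hp.hu
  obtain ⟨d, hd, hdc⟩ := exists_fc hp.hC (σ := σ') {c} (by simp; omega)
  rw [Finset.mem_singleton] at hdc
  obtain ⟨d', hd', hdc'⟩ := exists_fc hp.hC (σ := σ') {c, d} (by
    have : ({c, d} : Finset C).card ≤ 2 := Finset.card_le_two
    omega)
  simp only [Finset.mem_insert, Finset.mem_singleton, not_or] at hdc'
  -- the easy case
  have easy : ∀ g, FC σ' g → g ≠ c → Y.A (σ' s1).1 g = some s1 →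
      ∃ τ ∈ Y.St, FC τ c ∧ FC τ (σ' s1).2 ∧ ∀ s, (τ s).1 ∈ N Y c ↔ (σ s).1 ∈ N Y c := by
    intro g hg hgc hA
    have hg1 : FC (upd σ' s1 (r, c)) g := fc_upd_ne hg hgc
    have hτ := move hσ1 hfr1 hg1 hA
    refine ⟨_, hτ, ?_, ?_, ?_⟩
    · have h3 := fc_upd (s := s1) (x := (σ' s1).1) hσ1 hg1
      rw [upd_same] at h3
      exact h3
    · exact fc_upd_ne hfc1 (fun h => hg s1 h)
    · intro s
      rw [upd_upd, ← hiff]
      by_cases hs : s = s1
      · subst hs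
        rw [upd_same]
      · rw [upd_ne _ _ hs]
  have hval : ∀ g, FC σ' g → g ≠ c → ∀ n ∈ N Y c, ∀ w, Y.A n g = some w → w = s1 ∨ w = s2 := by
    intro g hg hgc n hn w hw
    exact hpair w ((two_N' hp hσ' (Ne.symm hgc) hc' (fun s _ => hg s)).2 n hn w hw)
  have hlive : ∀ g, FC σ' g → g ≠ c → ∃ w, Y.A (σ' s1).1 g = some w := fun g hg hgc =>
    live hσ1 hfr1 (fc_upd_ne hg hgc)
  obtain ⟨w, hw⟩ := hlive d hd hdc
  obtain ⟨w', hw'⟩ := hlive d' hd' hdc'.1
  rcases hval d hd hdc _ h1 w hw with rfl | rfl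
  · exact easy d hd hdc hw
  rcases hval d' hd' hdc'.1 _ h1 w' hw' with rfl | rfl
  · exact easy d' hd' hdc'.1 hw'
  -- both columns carry the second symbol
  have hd1 : FC (upd σ' s1 (r, c)) d := fc_upd_ne hd hdc
  have hd1' : FC (upd σ' s1 (r, c)) d' := fc_upd_ne hd' hdc'.1
  have hσ2 := move hσ1 hfr1 hd1 hw
  have hs2 : upd σ' s1 (r, c) w' = σ' w' := upd_ne _ _ h12.symm
  have hfr2 : FR (upd (upd σ' s1 (r, c)) w' ((σ' s1).1, d)) (σ' w').1 := by
    have h3 := fr_upd (s := w') (c := d) hσ1 hfr1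
    rw [hs2] at h3
    exact h3
  have hd2' : FC (upd (upd σ' s1 (r, c)) w' ((σ' s1).1, d)) d' := fc_upd_ne hd1' hdc'.2
  have he1 : FC (upd (upd σ' s1 (r, c)) w' ((σ' s1).1, d)) (σ' s1).2 :=
    fc_upd_ne hfc1 (fun h => hd s1 h)
  obtain ⟨v, hv⟩ := live hσ2 hfr2 hd2'
  have hvs : v = s1 := by
    rcases hval d' hd' hdc'.1 _ h2 v hv with h | h
    · exact h
    · subst h
      exact absurd (Y.inj _ _ _ _ hw' hv) hn12
  subst hvs
  have hσ3 := move hσ2 hfr2 hd2' hv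
  refine ⟨_, hσ3, ?_, ?_, ?_⟩
  · have h3 := fc_upd (s := v) (x := (σ' w').1) hσ2 hd2'
    rw [upd_ne _ _ h12, upd_same] at h3
    exact h3
  · exact fc_upd_ne he1 (fun h => hd' v h)
  · intro s
    rw [← hiff]
    by_cases hs : s = v
    · subst hs
      rw [upd_same]
      exact ⟨fun _ => h1, fun _ => h2⟩
    · rw [upd_ne _ _ hs]
      by_cases hs' : s = w'
      · subst hs'
        rw [upd_same]
        exact ⟨fun _ => h2, fun _ => h1⟩
      · rw [upd_ne _ _ hs', upd_ne _ _ hs]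

theorem other_sym (hp : Perf Y u) {σ : S → R × C} (hσ : σ ∈ Y.St) {c : C} (hc : FC σ c)
    {s1 : S} (h1 : (σ s1).1 ∈ N Y c) : ∃ s2, s1 ≠ s2 ∧ (σ s2).1 ∈ N Y c := by
  have h2 : 1 < (N Y c).card := by rw [N_card hp]; omega
  obtain ⟨m, hm, hne⟩ := Finset.exists_mem_ne h2 (σ s1).1
  obtain ⟨s2, hs2⟩ := exists_sym_of_not_free (not_free_of_N hσ hc hm)
  refine ⟨s2, ?_, ?_⟩
  · rintro rfl
    exact hne hs2.symm
  · rw [hs2]
    exact hm

/-- The live contents of the dead rows of `c` are the two symbols which sit there. -/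
theorem L1 (hp : Perf Y u) {σ : S → R × C} (hσ : σ ∈ Y.St) {c : C} (hc : FC σ c) {n : R}
    (hn : n ∈ N Y c) {d : C} {s : S} (hs : Y.A n d = some s) : (σ s).1 ∈ N Y c := by
  by_cases hcd : c = d
  · subst hcd
    rw [mem_N, hs] at hn
    exact absurd hn (by simp)
  by_cases h : ∀ s, (σ s).1 ∈ N Y c → (σ s).2 ≠ d
  · exact (two_N' hp hσ hcd hc h).2 n hn s hs
  · push Not at h
    obtain ⟨s1, h1, h2⟩ := h
    obtain ⟨s2, h3, h4⟩ := other_sym hp hσ hc h1
    obtain ⟨τ, hτ, h5, h6, h7⟩ := L1aux hp hσ hc h3 h1 h4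
    rw [h2] at h6
    rw [← h7]
    exact two_N hp hτ hcd h5 h6 hn hs

theorem P4 (hp : Perf Y u) {c d : C} (hcd : c ≠ d) : ∃ σ ∈ Y.St, FC σ c ∧ FC σ d := by
  obtain ⟨σ, hσ, hc⟩ := exists_col hp c
  by_cases h : ∀ s, (σ s).1 ∈ N Y c → (σ s).2 ≠ d
  · obtain ⟨τ, h1, h2⟩ := (two_N' hp hσ hcd hc h).1
    exact ⟨τ, h1.mem hσ, h1.fc (Finset.mem_singleton_self _) hc, h2⟩
  · push Not at h
    obtain ⟨s1, h1, h2⟩ := h
    obtain ⟨s2, h3, h4⟩ := other_sym hp hσ hc h1
    obtain ⟨τ, hτ, h5, h6, _⟩ := L1aux hp hσ hc h3 h1 h4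
    rw [h2] at h6
    exact ⟨τ, hτ, h5, h6⟩

/-- The symbols of the dead rows of `c`. -/
def SS (Y : Sys R C S) (c : C) (s : S) : Prop := ∃ n ∈ N Y c, ∃ d, Y.A n d = some s

theorem ss_iff (hp : Perf Y u) {σ : S → R × C} (hσ : σ ∈ Y.St) {c : C} (hc : FC σ c) {s : S} :
    (σ s).1 ∈ N Y c ↔ SS Y c s := by
  constructor
  · intro h
    exact ⟨_, h, _, Y.val σ hσ s⟩
  · rintro ⟨n, hn, d, hd⟩
    exact L1 hp hσ hc hn hd

/-- The four rows frozen when `c` and `d` are reserved. -/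
def M (Y : Sys R C S) (c d : C) : Finset R :=
  univ.filter (fun x => Y.A x d = none ∨ ∃ s, Y.A x d = some s ∧ SS Y c s)

theorem mem_M {c d : C} {x : R} :
    x ∈ M Y c d ↔ (Y.A x d = none ∨ ∃ s, Y.A x d = some s ∧ SS Y c s) := by
  simp [M]

theorem image_eq_M (hp : Perf Y u) {σ : S → R × C} (hσ : σ ∈ Y.St) {c d : C} (hcd : c ≠ d)
    (hc : FC σ c) (hd : FC σ d) :
    (Fr Y ∅ {c, d} σ).image (fun s => (σ s).1) = M Y c d := by
  rw [(two_aux hp hσ hcd hc hd).1]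
  ext x
  rw [mem_M, Finset.mem_filter]
  simp only [Finset.mem_univ, true_and, ss_iff hp hσ hc]

theorem M_card (hp : Perf Y u) {c d : C} (hcd : c ≠ d) : (M Y c d).card = 4 := by
  obtain ⟨σ, hσ, hc, hd⟩ := P4 hp hcd
  rw [← image_eq_M hp hσ hcd hc hd, (two_aux hp hσ hcd hc hd).1]
  exact (two_aux hp hσ hcd hc hd).2

theorem M_comm (hp : Perf Y u) {c d : C} (hcd : c ≠ d) : M Y c d = M Y d c := by
  obtain ⟨σ, hσ, hc, hd⟩ := P4 hp hcd
  rw [← image_eq_M hp hσ hcd hc hd, ← image_eq_M hp hσ hcd.symm hd hc, Finset.pair_comm]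

theorem N_sub_M (c d : C) : N Y d ⊆ M Y c d := by
  intro x hx
  rw [mem_M]
  exact Or.inl (mem_N.1 hx)

theorem N_sub_M' (hp : Perf Y u) {c d : C} (hcd : c ≠ d) : N Y c ⊆ M Y c d := by
  rw [M_comm hp hcd]
  exact N_sub_M d c

theorem reach_M (hp : Perf Y u) {σ : S → R × C} (hσ : σ ∈ Y.St) {c d : C} (hcd : c ≠ d)
    (hc : FC σ c) (hd : FC σ d) {x : R} (hx : x ∉ M Y c d) :
    ∃ τ, Reach Y ∅ {c, d} σ τ ∧ FR τ x := by
  rcases cover (Y := Y) (P := ∅) (D := {c, d}) hσ x with h | h | h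
  · simp at h
  · rw [mem_Act] at h
    exact h.2
  · rw [image_eq_M hp hσ hcd hc hd] at h
    exact absurd h hx

theorem M_frozen (hp : Perf Y u) {σ τ : S → R × C} (hσ : σ ∈ Y.St) {c d : C} (hcd : c ≠ d)
    (hc : FC σ c) (hd : FC σ d) {x : R} (hx : x ∈ M Y c d) {D : Finset C} (hcD : c ∈ D)
    (hdD : d ∈ D) (h : Reach Y ∅ D σ τ) : ¬ FR τ x := by
  have hsub : ({c, d} : Finset C) ⊆ D := by
    intro a ha
    simp only [Finset.mem_insert, Finset.mem_singleton] at ha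
    rcases ha with rfl | rfl
    · exact hcD
    · exact hdD
  have h' := h.mono (Finset.Subset.refl _) hsub
  rw [← image_eq_M hp hσ hcd hc hd, Finset.mem_image] at hx
  obtain ⟨s, hs, rfl⟩ := hx
  intro hF
  apply hF s
  rw [mem_Fr.1 hs τ h']

/-- The set of free columns of a state. -/
def FCs (σ : S → R × C) : Finset C := univ.filter (fun c => FC σ c)

theorem mem_FCs {σ : S → R × C} {c : C} : c ∈ FCs σ ↔ FC σ c := by simp [FCs]

theorem card_FCs (hp : Perf Y u) {σ : S → R × C} (hσ : σ ∈ Y.St) : (FCs σ).card = u := by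
  have h1 : FCs σ = ((univ : Finset S).image (fun s => (σ s).2))ᶜ := by
    ext c
    rw [mem_FCs, Finset.mem_compl, Finset.mem_image]
    unfold FC
    constructor
    · rintro h ⟨s, _, hs⟩
      exact h s hs
    · intro h s hs
      exact h ⟨s, Finset.mem_univ _, hs⟩
  rw [h1, Finset.card_compl, card_image_col hσ, hp.hC]
  have : (univ : Finset S).card = Fintype.card S := rfl
  omega

/-- Few frozen rows when one free row is parked. -/
theorem park (hp : Perf Y u) {σ : S → R × C} (hσ : σ ∈ Y.St) (n : R) (D : Finset C)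
    (hD : ∀ c ∈ D, FC σ c) :
    (Fr Y {n} D σ).card + u ≤ Fintype.card S + D.card := by
  have h1 := count_res_set (Y := Y) (P := {n}) hσ 1 (by rw [hp.hR]; simp) (FCs σ \ D) D
    (fun c hc => mem_FCs.1 (Finset.mem_sdiff.1 hc).1) Finset.sdiff_disjoint
  have h2 : D ⊆ FCs σ := fun c hc => mem_FCs.2 (hD c hc)
  have h3 : (FCs σ \ D).card = u - D.card := by
    rw [Finset.card_sdiff_of_subset h2, card_FCs hp hσ]
  have h4 : D.card ≤ u := by
    rw [← card_FCs hp hσ]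
    exact Finset.card_le_card h2
  have h5 : (Fr Y {n} (D ∪ FCs σ \ D) σ).card ≤ Fintype.card S := Finset.card_le_univ _
  rw [h3] at h1
  omega

/-- The columns in which the row `n` is dead. -/
def Dd (Y : Sys R C S) (n : R) : Finset C := univ.filter (fun c => Y.A n c = none)

theorem mem_Dd {n : R} {c : C} : c ∈ Dd Y n ↔ Y.A n c = none := by simp [Dd]

/-- The degree bound. -/
theorem deg (hp : Perf Y u) (n : R) : (Dd Y n).card + u ≤ Fintype.card S := by
  obtain ⟨σ, hσ, hn⟩ := exists_row hp n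
  have h1 := park hp hσ n ∅ (by simp)
  rw [Finset.card_empty, Nat.add_zero] at h1
  have h2 : Dd Y n ⊆ (Fr Y {n} ∅ σ).image (fun s => (σ s).2) := by
    intro c hc
    rw [mem_Dd] at hc
    have h3 : ∀ τ, Reach Y {n} ∅ σ τ → ¬ FC τ c := by
      intro τ h hF
      obtain ⟨s, hs⟩ := live (h.mem hσ) (h.fr (Finset.mem_singleton_self _) hn) hF
      rw [hc] at hs
      exact absurd hs (by simp)
    have h4 := h3 σ Reach.refl
    unfold FC at h4
    push Not at h4
    obtain ⟨s, hs⟩ := h4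
    rw [Finset.mem_image]
    refine ⟨s, ?_, hs⟩
    by_contra h5
    obtain ⟨τ, h6, _, h7⟩ := exists_free hσ h5
    rw [hs] at h7
    exact h3 τ h6 h7
  have h3 := le_trans (Finset.card_le_card h2) Finset.card_image_le
  omega

/-- Transport of the reserved class along a change of the contents of the dead rows. -/
theorem transport (hp : Perf Y u) {σ σ' : S → R × C} (hσ : σ ∈ Y.St) {c : C} (hc : FC σ c)
    (hagree : ∀ s, (σ s).1 ∉ N Y c → σ' s = σ s)
    (hN : ∀ s, (σ s).1 ∈ N Y c → (σ' s).1 ∈ N Y c) {D D' : Finset C} (hcD : c ∈ D)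
    (h1 : ∀ s, (σ s).1 ∈ N Y c → (σ' s).2 ∈ D ∨ ∃ s', (σ s').1 ∈ N Y c ∧ (σ' s).2 = (σ s').2)
    (h2 : ∀ g ∈ D', g ∈ D ∨ ∃ s, (σ s).1 ∈ N Y c ∧ (σ s).2 = g) {ρ : S → R × C}
    (h : Reach Y ∅ D σ ρ) :
    Reach Y ∅ D' σ' (fun s => if (σ s).1 ∈ N Y c then σ' s else ρ s) := by
  induction h with
  | refl =>
    have h3 : (fun s => if (σ s).1 ∈ N Y c then σ' s else σ s) = σ' := by
      funext s
      by_cases hs : (σ s).1 ∈ N Y c
      · simp [hs]
      · simp [hs, hagree s hs]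
    rw [h3]
    exact Reach.refl
  | step ρ x g s0 h0 hx1 hg1 hx hg hA ih =>
    have hs0 : (σ s0).1 ∉ N Y c := by
      intro hs0
      have h3 := frozen' hp hσ hc hcD hs0 h0
      have h4 := frozen' hp hσ hc hcD hs0 (Reach.step ρ x g s0 h0 hx1 hg1 hx hg hA)
      rw [upd_same, ← h3] at h4
      exact hx s0 (by rw [← h4])
    have h3 : (fun s => if (σ s).1 ∈ N Y c then σ' s else upd ρ s0 (x, g) s) =
        upd (fun s => if (σ s).1 ∈ N Y c then σ' s else ρ s) s0 (x, g) := by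
      funext s
      by_cases hs : s = s0
      · subst hs
        rw [upd_same, upd_same, if_neg hs0]
      · rw [upd_ne _ _ hs, upd_ne _ _ hs]
    rw [h3]
    refine Reach.step _ x g s0 ih (by simp) ?_ ?_ ?_ hA
    · intro hg'
      rcases h2 g hg' with h4 | ⟨s, h4, h5⟩
      · exact hg1 h4
      · have h6 := frozen' hp hσ hc hcD h4 h0
        rw [← h6] at h5
        exact hg s h5
    · intro s hs
      by_cases h4 : (σ s).1 ∈ N Y c
      · simp only [h4, if_true] at hs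
        have h5 := hN s h4
        rw [hs] at h5
        exact not_free_of_N (h0.mem hσ) (h0.fc hcD hc) h5 hx
      · simp only [h4, if_false] at hs
        exact hx s hs
    · intro s hs
      by_cases h4 : (σ s).1 ∈ N Y c
      · simp only [h4, if_true] at hs
        rcases h1 s h4 with h5 | ⟨s', h5, h6⟩
        · rw [hs] at h5
          exact hg1 h5
        · rw [hs, ← frozen' hp hσ hc hcD h5 h0] at h6
          exact hg s' h6.symm
      · simp only [h4, if_false] at hs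
        exact hg s hs

theorem transport_fr (hp : Perf Y u) {σ σ' : S → R × C} (hσ : σ ∈ Y.St) {c : C} (hc : FC σ c)
    (hN : ∀ s, (σ s).1 ∈ N Y c → (σ' s).1 ∈ N Y c) {D : Finset C} (hcD : c ∈ D)
    {ρ : S → R × C} (h : Reach Y ∅ D σ ρ) {x : R} (hx : FR ρ x) :
    FR (fun s => if (σ s).1 ∈ N Y c then σ' s else ρ s) x := by
  intro s hs
  by_cases h4 : (σ s).1 ∈ N Y c
  · simp only [h4, if_true] at hs
    have h5 := hN s h4
    rw [hs] at h5
    exact not_free_of_N (h.mem hσ) (h.fc hcD hc) h5 hx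
  · simp only [h4, if_false] at hs
    exact hx s hs

/-- The swap lemma. -/
theorem swap (hp : Perf Y u) {σ : S → R × C} (hσ : σ ∈ Y.St) {c d' : C} (hc : FC σ c)
    (hd' : FC σ d') (hcd' : c ≠ d') {s : S} (hn : (σ s).1 ∈ N Y c)
    (hA : Y.A (σ s).1 d' = some s) :
    M Y c (σ s).2 = M Y c d' ∧
      ∃ τ ∈ Y.St, FC τ c ∧ FC τ (σ s).2 ∧ τ s = ((σ s).1, d') := by
  obtain ⟨r, hr⟩ := surj hp c s
  have hcd : c ≠ (σ s).2 := fun h => hc s h.symm
  have hdd' : (σ s).2 ≠ d' := hd' s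
  have hrM : r ∉ M Y c d' := by
    rw [M_comm hp hcd', mem_M, hr]
    rintro (h | ⟨s', h1, h2⟩)
    · exact absurd h (by simp)
    · rw [← Option.some.inj h1, ← ss_iff hp hσ hd', mem_N, hA] at h2
      exact absurd h2 (by simp)
  obtain ⟨τ0, hτ0, hfr⟩ := reach_M hp hσ hcd' hc hd' hrM
  have hm0 := hτ0.mem hσ
  have hc0 : FC τ0 c := hτ0.fc (by simp) hc
  have hd0 : FC τ0 d' := hτ0.fc (by simp) hd'
  have e0 : τ0 s = σ s := frozen' hp hσ hc (by simp) hn hτ0
  have hn0 : (τ0 s).1 ∈ N Y c := by rw [e0]; exact hn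
  have hm1 := move hm0 hfr hc0 hr
  have hfr1 : FR (upd τ0 s (r, c)) (τ0 s).1 := fr_upd hm0 hfr
  have hfc1 : FC (upd τ0 s (r, c)) (τ0 s).2 := fc_upd hm0 hc0
  have hfd1 : FC (upd τ0 s (r, c)) d' := fc_upd_ne hd0 (Ne.symm hcd')
  have hA' : Y.A (τ0 s).1 d' = some s := by rw [e0]; exact hA
  have hm2 := move hm1 hfr1 hfd1 hA'
  have hc2 := fc_upd (s := s) (x := (τ0 s).1) hm1 hfd1
  rw [upd_same] at hc2
  have hc2' : FC (upd (upd τ0 s (r, c)) s ((τ0 s).1, d')) c := hc2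
  have hd2 : FC (upd (upd τ0 s (r, c)) s ((τ0 s).1, d')) (τ0 s).2 :=
    fc_upd_ne hfc1 (by rw [e0]; exact hdd')
  rw [upd_upd] at hm2 hc2' hd2
  have hmain : M Y c (σ s).2 ⊆ M Y c d' := by
    intro x hx
    by_contra hxM
    obtain ⟨ρ, h1, h2⟩ := reach_M hp hm0 hcd' hc0 hd0 hxM
    have hN : ∀ w, (τ0 w).1 ∈ N Y c → (upd τ0 s ((τ0 s).1, d') w).1 ∈ N Y c := by
      intro w hw
      by_cases hws : w = s
      · subst hws
        rw [upd_same]
        exact hn0
      · rw [upd_ne _ _ hws]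
        exact hw
    have h3 := transport hp (σ' := upd τ0 s ((τ0 s).1, d')) (D' := {c, (τ0 s).2}) hm0 hc0
      (by
        intro w hw
        rw [upd_ne]
        rintro rfl
        exact hw hn0) hN (by simp)
      (by
        intro w hw
        by_cases hws : w = s
        · subst hws
          left
          rw [upd_same]
          simp
        · right
          rw [upd_ne _ _ hws]
          exact ⟨w, hw, rfl⟩) (by
        intro g hg
        simp only [Finset.mem_insert, Finset.mem_singleton] at hg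
        rcases hg with rfl | rfl
        · exact Or.inl (by simp)
        · exact Or.inr ⟨s, hn0, rfl⟩) h1
    have h4 := transport_fr hp (σ' := upd τ0 s ((τ0 s).1, d')) hm0 hc0 hN (by simp) h1 h2
    exact M_frozen hp hm2 hcd hc2' (by rw [← e0]; exact hd2) hx (by simp) (by rw [e0]; simp) h3 h4
  refine ⟨?_, _, hm2, hc2', ?_, ?_⟩
  · apply Finset.eq_of_subset_of_card_le hmain
    rw [M_card hp hcd', M_card hp hcd]
  · rw [← e0]
    exact hd2
  · rw [upd_same, e0]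

end

end StE5
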