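import Pool.Agent.StE5.CaseA

set_option autoImplicit false
set_option linter.unusedSectionVars false

/-!
A closed system with `t` symbols and `u` free columns has `5 u ≤ 2 t`; near transversals.
-/

namespace StE5

open scoped Classical
open Finset

noncomputable section

theorem closed_bound : ∀ u t : ℕ, Closed t u → 5 * u ≤ 2 * t := by
  intro u
  induction u using Nat.strong_induction_on with
  | _ u ih =>
    intro t ht
    -- take the least number of symbols
    have hex : ∃ t, Closed t u := ⟨t, ht⟩
    set t0 := Nat.find hex with ht0
    have hcl : Closed t0 u := Nat.find_spec hex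
    have hmin : ∀ t', Closed t' u → t0 ≤ t' := fun t' h => Nat.find_min' hex h
    have htt : t0 ≤ t := hmin t ht
    suffices h : 5 * u ≤ 2 * t0 by omega
    clear_value t0
    clear htt ht ht0 hex t
    by_contra hcon
    push Not at hcon
    obtain ⟨R, C, S, iR, iC, iS, Y, hne, hS, hR, hC⟩ := hcl
    obtain ⟨σ0, hσ0⟩ := hne
    have hR' : Fintype.card R = Fintype.card S + 2 := by rw [hR, hS]
    have hC' : Fintype.card C = Fintype.card S + u := by rw [hC, hS]
    rcases Nat.lt_or_ge u 1 with hu | hu
    · omega
    rcases Nat.lt_or_ge u 2 with hu2 | hu2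
    · have hu1 : u = 1 := by omega
      subst hu1
      have := base_one hR' hC' hσ0
      omega
    rcases Nat.lt_or_ge u 3 with hu3 | hu3
    · have hu1 : u = 2 := by omega
      subst hu1
      obtain ⟨c, hc, _⟩ := exists_fc hC' (σ := σ0) ∅ (by simp)
      have h1 := sub_closed hR' hC' hσ0 {c} (by simpa using hc)
      rw [Finset.card_singleton] at h1
      have h2 := ih 1 (by omega) _ h1
      have h3 := count_res (Y := Y) (P := ∅) (D := {c}) hσ0 hc (by simp)
      rw [hR', Finset.card_empty] at h3
      omega
    have key : ∀ σ ∈ Y.St, ∀ D : Finset C, (∀ c ∈ D, FC σ c) → 1 ≤ D.card → D.card ≤ u →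
        5 * (u - D.card) ≤ 2 * (t0 - (Fr Y ∅ D σ).card) := by
      intro σ hσ D hD h1 h2
      have h3 := sub_closed hR' hC' hσ D hD
      rw [hS] at h3
      exact ih (u - D.card) (by omega) _ h3
    have hFle : ∀ σ : S → R × C, ∀ D : Finset C, (Fr Y ∅ D σ).card ≤ t0 := by
      intro σ D
      rw [← hS]
      exact Finset.card_le_univ _
    have hp : Perf Y u := by
      refine ⟨⟨σ0, hσ0⟩, hR', hC', hu3, ?_, ?_, ?_, ?_⟩
      · intro σ hσ
        have h3 := sub_closed hR' hC' hσ ∅ (by simp)
        rw [hS, Finset.card_empty, Nat.sub_zero] at h3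
        have h4 := hmin _ h3
        have h5 := hFle σ ∅
        rw [← Finset.card_eq_zero]
        omega
      · intro σ hσ c hc
        have h1 := key σ hσ {c} (by simpa using hc) (by simp) (by simp; omega)
        rw [Finset.card_singleton] at h1
        have h2 := hFle σ {c}
        omega
      · intro σ hσ c d hcd hc hd
        have h0 : ({c, d} : Finset C).card = 2 := Finset.card_pair hcd
        have h1 := key σ hσ {c, d} (by
          intro a ha
          simp only [Finset.mem_insert, Finset.mem_singleton] at ha
          rcases ha with rfl | rfl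
          · exact hc
          · exact hd) (by omega) (by omega)
        rw [h0] at h1
        have h2 := hFle σ {c, d}
        omega
      · intro σ hσ c d e hcd hce hde hc hd he
        have h0 : ({c, d, e} : Finset C).card = 3 := by
          rw [Finset.card_eq_three]
          exact ⟨c, d, e, hcd, hce, hde, rfl⟩
        have h1 := key σ hσ {c, d, e} (by
          intro a ha
          simp only [Finset.mem_insert, Finset.mem_singleton] at ha
          rcases ha with rfl | rfl | rfl
          · exact hc
          · exact hd
          · exact he) (by omega) (by omega)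
        rw [h0] at h1
        have h2 := hFle σ {c, d, e}
        omega
    have hcore := core hp
    rw [hS] at hcore
    omega

/-- A partial transversal of a matrix. -/
def IsPT {m n : ℕ} (A : Fin m → Fin n → ℕ) (T : Finset (Fin m × Fin n)) : Prop :=
  Set.InjOn (fun p : Fin m × Fin n => p.1) (↑T : Set (Fin m × Fin n)) ∧
  Set.InjOn (fun p : Fin m × Fin n => p.2) (↑T : Set (Fin m × Fin n)) ∧
  Set.InjOn (fun p : Fin m × Fin n => A p.1 p.2) (↑T : Set (Fin m × Fin n))

theorem IsPT.subset {m n : ℕ} {A : Fin m → Fin n → ℕ} {T T' : Finset (Fin m × Fin n)}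
    (h : IsPT A T) (h' : T' ⊆ T) : IsPT A T' :=
  ⟨h.1.mono (by exact_mod_cast h'), h.2.1.mono (by exact_mod_cast h'),
    h.2.2.mono (by exact_mod_cast h')⟩

/-- A maximum partial transversal with at most `m - 2` cells gives a closed system. -/
theorem closed_of_max {m n : ℕ} {A : Fin m → Fin n → ℕ}
    (hA : ∀ j : Fin n, Function.Injective (fun i : Fin m => A i j))
    {T : Finset (Fin m × Fin n)} (hT : IsPT A T)
    (hmax : ∀ T', IsPT A T' → T'.card ≤ T.card) (hm : T.card + 2 ≤ m) (hmn : m ≤ n) :
    Closed T.card (n - T.card) := by
  obtain ⟨hT1, hT2, hT3⟩ := hT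
  -- rows
  have hrow : (T.image (fun p => p.1)).card = T.card := Finset.card_image_of_injOn hT1
  obtain ⟨Rs, hRs1, hRs2⟩ := Finset.exists_superset_card_eq (s := T.image (fun p => p.1))
    (n := T.card + 2) (by omega) (by simpa using hm)
  set Ss : Finset ℕ := T.image (fun p => A p.1 p.2) with hSs
  have hScard : Ss.card = T.card := Finset.card_image_of_injOn hT3
  let B : {x // x ∈ Rs} → Fin n → Option {s // s ∈ Ss} := fun x c =>
    if h : A x.1 c ∈ Ss then some ⟨A x.1 c, h⟩ else none
  have hB : ∀ x c s, B x c = some s ↔ A x.1 c = s.1 := by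
    intro x c s
    constructor
    · intro h
      by_cases h' : A x.1 c ∈ Ss
      · simp only [B, dif_pos h'] at h
        rw [← Option.some.inj h]
      · simp only [B, dif_neg h'] at h
        exact absurd h (by simp)
    · intro h
      have h' : A x.1 c ∈ Ss := by rw [h]; exact s.2
      simp only [B, dif_pos h']
      congr 1
      exact Subtype.ext h
  let Y : Sys {x // x ∈ Rs} (Fin n) {s // s ∈ Ss} :=
    { A := B
      inj := by
        intro c x y s hx hy
        rw [hB] at hx hy
        exact Subtype.ext (hA c (by simp only; rw [hx, hy]))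
      St := {σ | (∀ s s', (σ s).1 = (σ s').1 → s = s') ∧ (∀ s s', (σ s).2 = (σ s').2 → s = s') ∧
        ∀ s, B (σ s).1 (σ s).2 = some s}
      rinj := fun σ h => h.1
      cinj := fun σ h => h.2.1
      val := fun σ h => h.2.2
      step := by
        rintro σ ⟨h1, h2, h3⟩ x c hx hc
        have hval : ∀ s, A (σ s).1.1 (σ s).2 = s.1 := fun s => (hB _ _ _).1 (h3 s)
        have hmem : A x.1 c ∈ Ss := by
          by_contra hcon
          -- a larger partial transversal
          set T' : Finset (Fin m × Fin n) :=
            insert (x.1, c) ((univ : Finset {s // s ∈ Ss}).image (fun s => ((σ s).1.1, (σ s).2)))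
            with hT'
          have hnot : (x.1, c) ∉
              (univ : Finset {s // s ∈ Ss}).image (fun s => ((σ s).1.1, (σ s).2)) := by
            rw [Finset.mem_image]
            rintro ⟨s, _, hs⟩
            exact hc s (Prod.ext_iff.1 hs).2
          have hcard : T'.card = T.card + 1 := by
            rw [hT', Finset.card_insert_of_notMem hnot, Finset.card_image_of_injective,
              Finset.card_univ, Fintype.card_coe, hScard]
            intro s s' h
            exact h2 s s' (Prod.ext_iff.1 h).2
          have hPT : IsPT A T' := by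
            have hcases : ∀ p ∈ (↑T' : Set (Fin m × Fin n)),
                p = (x.1, c) ∨ ∃ s, p = ((σ s).1.1, (σ s).2) := by
              intro p hp
              rw [Finset.mem_coe, hT', Finset.mem_insert, Finset.mem_image] at hp
              rcases hp with h | ⟨s, _, h⟩
              · exact Or.inl h
              · exact Or.inr ⟨s, h.symm⟩
            refine ⟨?_, ?_, ?_⟩
            · intro p hp q hq hpq
              rcases hcases p hp with rfl | ⟨s, rfl⟩ <;> rcases hcases q hq with rfl | ⟨s', rfl⟩
              · rfl
              · exact absurd (Subtype.ext hpq.symm) (hx s')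
              · exact absurd (Subtype.ext hpq) (hx s)
              · rw [h1 s s' (Subtype.ext hpq)]
            · intro p hp q hq hpq
              rcases hcases p hp with rfl | ⟨s, rfl⟩ <;> rcases hcases q hq with rfl | ⟨s', rfl⟩
              · rfl
              · exact absurd hpq.symm (hc s')
              · exact absurd hpq (hc s)
              · rw [h2 s s' hpq]
            · intro p hp q hq hpq
              rcases hcases p hp with rfl | ⟨s, rfl⟩ <;> rcases hcases q hq with rfl | ⟨s', rfl⟩
              · rfl
              · exfalso
                simp only at hpq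
                rw [hval] at hpq
                rw [hpq] at hcon
                exact hcon s'.2
              · exfalso
                simp only at hpq
                rw [hval] at hpq
                rw [← hpq] at hcon
                exact hcon s.2
              · simp only at hpq
                rw [hval, hval] at hpq
                rw [Subtype.ext hpq]
          have := hmax T' hPT
          omega
        have hBx : B x c = some ⟨A x.1 c, hmem⟩ := (hB _ _ _).2 rfl
        refine ⟨⟨A x.1 c, hmem⟩, hBx, ?_, ?_, ?_⟩
        · intro s s' h
          by_cases hs : s = ⟨A x.1 c, hmem⟩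
          · by_cases hs' : s' = ⟨A x.1 c, hmem⟩
            · rw [hs, hs']
            · rw [hs, upd_same, upd_ne _ _ hs'] at h
              exact absurd h.symm (hx s')
          · by_cases hs' : s' = ⟨A x.1 c, hmem⟩
            · rw [hs', upd_same, upd_ne _ _ hs] at h
              exact absurd h (hx s)
            · rw [upd_ne _ _ hs, upd_ne _ _ hs'] at h
              exact h1 s s' h
        · intro s s' h
          by_cases hs : s = ⟨A x.1 c, hmem⟩
          · by_cases hs' : s' = ⟨A x.1 c, hmem⟩
            · rw [hs, hs']
            · rw [hs, upd_same, upd_ne _ _ hs'] at h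
              exact absurd h.symm (hc s')
          · by_cases hs' : s' = ⟨A x.1 c, hmem⟩
            · rw [hs', upd_same, upd_ne _ _ hs] at h
              exact absurd h (hc s)
            · rw [upd_ne _ _ hs, upd_ne _ _ hs'] at h
              exact h2 s s' h
        · intro s
          by_cases hs : s = ⟨A x.1 c, hmem⟩
          · rw [hs, upd_same]
            exact hBx
          · rw [upd_ne _ _ hs]
            exact h3 s }
  -- the initial state
  have hsym : ∀ s : {s // s ∈ Ss}, ∃ p ∈ T, A p.1 p.2 = s.1 := by
    intro s
    have := s.2
    simp only [hSs, Finset.mem_image] at this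
    exact this
  choose g hg1 hg2 using hsym
  have hgR : ∀ s, (g s).1 ∈ Rs := fun s => hRs1 (Finset.mem_image_of_mem _ (hg1 s))
  have hginj : ∀ s s', g s = g s' → s = s' := by
    intro s s' h
    apply Subtype.ext
    rw [← hg2 s, ← hg2 s', h]
  refine ⟨_, _, _, inferInstance, inferInstance, inferInstance, Y, ?_, ?_, ?_, ?_⟩
  · refine ⟨fun s => (⟨(g s).1, hgR s⟩, (g s).2), ?_, ?_, ?_⟩
    · intro s s' h
      apply hginj
      apply hT1 (hg1 s) (hg1 s')
      have := Subtype.ext_iff.1 h
      exact this
    · intro s s' h
      apply hginj
      exact hT2 (hg1 s) (hg1 s') h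
    · intro s
      exact (hB _ _ _).2 (hg2 s)
  · rw [Fintype.card_coe, hScard]
  · rw [Fintype.card_coe, hRs2]
  · rw [Fintype.card_fin]
    omega

/-- Near transversals in column-latin matrices with `5 n ≥ 7 m - 13`. -/
theorem near_transversal (m n : ℕ) (hmn : m ≤ n) (h57 : 7 * m ≤ 5 * n + 13)
    (A : Fin m → Fin n → ℕ) (hA : ∀ j : Fin n, Function.Injective (fun i : Fin m => A i j)) :
    ∃ T : Finset (Fin m × Fin n), T.card = m - 1 ∧ IsPT A T := by
  have hex : ∃ T, T ∈ (univ : Finset (Finset (Fin m × Fin n))).filter (fun T => IsPT A T) ∧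
      ∀ T' ∈ (univ : Finset (Finset (Fin m × Fin n))).filter (fun T => IsPT A T),
        T'.card ≤ T.card := by
    apply Finset.exists_max_image
    refine ⟨∅, ?_⟩
    rw [Finset.mem_filter]
    refine ⟨Finset.mem_univ _, ?_, ?_, ?_⟩ <;> simp
  obtain ⟨T, hT, hmax⟩ := hex
  rw [Finset.mem_filter] at hT
  have hmax' : ∀ T', IsPT A T' → T'.card ≤ T.card := fun T' h =>
    hmax T' (by rw [Finset.mem_filter]; exact ⟨Finset.mem_univ _, h⟩)
  by_cases hTm : T.card + 2 ≤ m
  · exfalso
    have h1 := closed_bound _ _ (closed_of_max hA hT.2 hmax' hTm hmn)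
    omega
  · obtain ⟨T', h1, h2⟩ := Finset.exists_subset_card_eq (s := T) (n := m - 1) (by omega)
    exact ⟨T', h2, hT.2.subset h1⟩

end

end StE5
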