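import Pool.Agent.StE5.Basic

set_option autoImplicit false
set_option linter.unusedSectionVars false

/-!
The subsystem obtained by reserving some free columns, and the base case: a closed system with
one free column has at least three symbols.
-/

namespace StE5

open scoped Classical
open Finset

noncomputable section

/-- There is a closed system with `t` symbols, `t + 2` rows and `t + u` columns. -/
def Closed (t u : ℕ) : Prop :=
  ∃ (R C S : Type) (_ : Fintype R) (_ : Fintype C) (_ : Fintype S) (Y : Sys R C S),
    Y.St.Nonempty ∧ Fintype.card S = t ∧ Fintype.card R = t + 2 ∧ Fintype.card C = t + u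

variable {R C S : Type} {Y : Sys R C S} [Fintype R] [Fintype C] [Fintype S]

theorem act_eq {D : Finset C} {σ : S → R × C} (hσ : σ ∈ Y.St) :
    Act Y ∅ D σ = ((Fr Y ∅ D σ).image (fun s => (σ s).1))ᶜ := by
  ext x
  rw [Finset.mem_compl, mem_Act, Finset.mem_image]
  constructor
  · rintro ⟨_, τ, h, hx⟩ ⟨s, hs, rfl⟩
    rw [mem_Fr] at hs
    have := hx s
    rw [hs τ h] at this
    exact this rfl
  · intro hx
    rcases cover (Y := Y) (P := ∅) (D := D) hσ x with h | h | h
    · simp at h
    · rw [mem_Act] at h
      exact h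
    · rw [Finset.mem_image] at h
      exact absurd h hx

theorem card_fr_le (P : Finset R) (D : Finset C) (σ : S → R × C) :
    (Fr Y P D σ).card ≤ Fintype.card S := Finset.card_le_univ _

theorem card_image_row {σ : S → R × C} (hσ : σ ∈ Y.St)
    (F : Finset S) : (F.image (fun s => (σ s).1)).card = F.card :=
  Finset.card_image_of_injective _ (fun _ _ h => Y.rinj σ hσ _ _ h)

theorem card_image_col {σ : S → R × C} (hσ : σ ∈ Y.St)
    (F : Finset S) : (F.image (fun s => (σ s).2)).card = F.card :=
  Finset.card_image_of_injective _ (fun _ _ h => Y.cinj σ hσ _ _ h)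

/-- The columns that become free at some moment, together with the reserved ones. -/
theorem card_free_le {σ : S → R × C} (hσ : σ ∈ Y.St) {D : Finset C} (hD : ∀ c ∈ D, FC σ c) :
    D.card + Fintype.card S ≤ Fintype.card C := by
  have h1 := card_image_col hσ (univ : Finset S)
  have h2 : Disjoint D ((univ : Finset S).image (fun s => (σ s).2)) := by
    rw [Finset.disjoint_left]
    intro c hc h
    rw [Finset.mem_image] at h
    obtain ⟨s, _, hs⟩ := h
    exact hD c hc s hs
  have h3 := Finset.card_le_univ (D ∪ (univ : Finset S).image (fun s => (σ s).2))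
  rw [Finset.card_union_of_disjoint h2, h1] at h3
  simpa using h3

theorem sub_closed {u : ℕ} (hR : Fintype.card R = Fintype.card S + 2)
    (hC : Fintype.card C = Fintype.card S + u) {σ : S → R × C} (hσ : σ ∈ Y.St)
    (D : Finset C) (hD : ∀ c ∈ D, FC σ c) :
    Closed (Fintype.card S - (Fr Y ∅ D σ).card) (u - D.card) := by
  set F := Fr Y ∅ D σ with hF
  set Ac : Finset C := (D ∪ F.image (fun s => (σ s).2))ᶜ with hAc
  have hFle : F.card ≤ Fintype.card S := Finset.card_le_univ _
  have hDu := card_free_le hσ hD
  have hcardR : (Act Y ∅ D σ).card = (Fintype.card S - F.card) + 2 := by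
    rw [act_eq hσ, Finset.card_compl, card_image_row hσ, ← hF]
    omega
  have hdis : Disjoint D (F.image (fun s => (σ s).2)) := by
    rw [Finset.disjoint_left]
    intro c hc h
    rw [Finset.mem_image] at h
    obtain ⟨s, _, hs⟩ := h
    exact hD c hc s hs
  have hcardC : Ac.card = (Fintype.card S - F.card) + (u - D.card) := by
    rw [hAc, Finset.card_compl, Finset.card_union_of_disjoint hdis, card_image_col hσ]
    omega
  have hcardS : (Fᶜ).card = Fintype.card S - F.card := Finset.card_compl _
  -- facts about reachable states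
  have hrow : ∀ τ, Reach Y ∅ D σ τ → ∀ s, s ∉ F → (τ s).1 ∈ Act Y ∅ D σ := by
    intro τ h s hs
    rw [act_eq hσ, Finset.mem_compl, Finset.mem_image]
    rintro ⟨s', hs', h'⟩
    rw [← hF] at hs'
    have h1 := mem_Fr.1 hs' τ h
    rw [← h1] at h'
    have := Y.rinj τ (h.mem hσ) _ _ h'
    rw [this] at hs'
    exact hs hs'
  have hcol : ∀ τ, Reach Y ∅ D σ τ → ∀ s, s ∉ F → (τ s).2 ∈ Ac := by
    intro τ h s hs
    rw [hAc, Finset.mem_compl, Finset.mem_union, Finset.mem_image]
    rintro (h1 | ⟨s', hs', h'⟩)
    · exact (h.fc h1 (hD _ h1)) s rfl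
    · have h1 := mem_Fr.1 hs' τ h
      rw [← h1] at h'
      have := Y.cinj τ (h.mem hσ) _ _ h'
      rw [this] at hs'
      exact hs hs'
  let A' : {x // x ∈ Act Y ∅ D σ} → {c // c ∈ Ac} → Option {s // s ∈ Fᶜ} := fun x c =>
    if h : ∃ s : {s // s ∈ Fᶜ}, Y.A x.1 c.1 = some s.1 then some h.choose else none
  have hA' : ∀ x c s, A' x c = some s ↔ Y.A x.1 c.1 = some s.1 := by
    intro x c s
    constructor
    · intro h
      by_cases h' : ∃ s : {s // s ∈ Fᶜ}, Y.A x.1 c.1 = some s.1
      · simp only [A', dif_pos h'] at h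
        rw [← Option.some.inj h]
        exact h'.choose_spec
      · simp only [A', dif_neg h'] at h
        exact absurd h (by simp)
    · intro h
      have h' : ∃ s : {s // s ∈ Fᶜ}, Y.A x.1 c.1 = some s.1 := ⟨s, h⟩
      simp only [A', dif_pos h']
      congr 1
      apply Subtype.ext
      exact (Option.some.inj (h.symm.trans h'.choose_spec)).symm
  let St' : Set ({s // s ∈ Fᶜ} → {x // x ∈ Act Y ∅ D σ} × {c // c ∈ Ac}) :=
    {σ' | ∃ τ, Reach Y ∅ D σ τ ∧ ∀ s : {s // s ∈ Fᶜ}, ((σ' s).1 : R) = (τ s.1).1 ∧
      ((σ' s).2 : C) = (τ s.1).2}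
  let Y' : Sys {x // x ∈ Act Y ∅ D σ} {c // c ∈ Ac} {s // s ∈ Fᶜ} :=
    { A := A'
      inj := by
        intro c x y s hx hy
        rw [hA'] at hx hy
        exact Subtype.ext (Y.inj _ _ _ _ hx hy)
      St := St'
      rinj := by
        rintro σ' ⟨τ, h, h1⟩ s s' hs
        apply Subtype.ext
        apply Y.rinj τ (h.mem hσ)
        rw [← (h1 s).1, ← (h1 s').1, hs]
      cinj := by
        rintro σ' ⟨τ, h, h1⟩ s s' hs
        apply Subtype.ext
        apply Y.cinj τ (h.mem hσ)
        rw [← (h1 s).2, ← (h1 s').2, hs]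
      val := by
        rintro σ' ⟨τ, h, h1⟩ s
        rw [hA', (h1 s).1, (h1 s).2]
        exact Y.val τ (h.mem hσ) _
      step := by
        rintro σ' ⟨τ, h, h1⟩ x c hx hc
        have hx' : FR τ x.1 := by
          intro s hs
          by_cases hsF : s ∈ F
          · have h2 := (Finset.ext_iff.1 (act_eq hσ) x.1).1 x.2
            rw [Finset.mem_compl, Finset.mem_image] at h2
            apply h2
            refine ⟨s, hsF, ?_⟩
            rw [← mem_Fr.1 hsF τ h]
            exact hs
          · have h2 := hx ⟨s, Finset.mem_compl.2 hsF⟩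
            apply h2
            apply Subtype.ext
            rw [(h1 _).1]
            exact hs
        have hc' : FC τ c.1 := by
          intro s hs
          by_cases hsF : s ∈ F
          · have h2 := (Finset.ext_iff.1 hAc c.1).1 c.2
            rw [Finset.mem_compl, Finset.mem_union, Finset.mem_image] at h2
            apply h2
            right
            refine ⟨s, hsF, ?_⟩
            rw [← mem_Fr.1 hsF τ h]
            exact hs
          · have h2 := hc ⟨s, Finset.mem_compl.2 hsF⟩
            apply h2
            apply Subtype.ext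
            rw [(h1 _).2]
            exact hs
        have hcD : c.1 ∉ D := by
          have h2 := (Finset.ext_iff.1 hAc c.1).1 c.2
          rw [Finset.mem_compl, Finset.mem_union] at h2
          exact fun h => h2 (Or.inl h)
        obtain ⟨s, hs⟩ := live (h.mem hσ) hx' hc'
        have hreach := Reach.step τ x.1 c.1 s h (by simp) hcD hx' hc' hs
        have hsF : s ∉ F := by
          intro hsF
          have h2 := mem_Fr.1 hsF _ hreach
          rw [upd_same, ← mem_Fr.1 hsF τ h] at h2
          apply hx' s
          rw [← h2]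
        refine ⟨⟨s, Finset.mem_compl.2 hsF⟩, ?_, ?_⟩
        · rw [hA']
          exact hs
        · refine ⟨upd τ s (x.1, c.1), hreach, ?_⟩
          intro s'
          by_cases h2 : s' = ⟨s, Finset.mem_compl.2 hsF⟩
          · subst h2
            rw [upd_same, upd_same]
            exact ⟨rfl, rfl⟩
          · rw [upd_ne _ _ h2, upd_ne]
            · exact h1 s'
            · intro h3
              apply h2
              exact Subtype.ext h3 }
  refine ⟨_, _, _, inferInstance, inferInstance, inferInstance, Y', ?_, ?_, ?_, ?_⟩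
  · refine ⟨fun s => (⟨(σ s.1).1, hrow σ Reach.refl s.1 (Finset.mem_compl.1 s.2)⟩,
      ⟨(σ s.1).2, hcol σ Reach.refl s.1 (Finset.mem_compl.1 s.2)⟩), σ, Reach.refl, ?_⟩
    intro s
    exact ⟨rfl, rfl⟩
  · rw [Fintype.card_coe, hcardS]
  · rw [Fintype.card_coe, hcardR]
  · rw [Fintype.card_coe, hcardC]

/-- A free column exists. -/
theorem exists_fc {u : ℕ} (hC : Fintype.card C = Fintype.card S + u)
    {σ : S → R × C} (D : Finset C) (hD : D.card < u) : ∃ c, FC σ c ∧ c ∉ D := by
  by_contra hcon
  push Not at hcon
  have h1 : (univ : Finset C) ⊆ D ∪ (univ : Finset S).image (fun s => (σ s).2) := by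
    intro c _
    rw [Finset.mem_union, Finset.mem_image]
    by_cases hc : FC σ c
    · exact Or.inl (hcon c hc)
    · unfold FC at hc
      push Not at hc
      obtain ⟨s, hs⟩ := hc
      exact Or.inr ⟨s, Finset.mem_univ _, hs⟩
  have h2 := Finset.card_le_card h1
  have h3 := Finset.card_union_le D ((univ : Finset S).image (fun s => (σ s).2))
  have h4 : ((univ : Finset S).image (fun s => (σ s).2)).card ≤ Fintype.card S :=
    Finset.card_image_le
  have h5 : (univ : Finset C).card = Fintype.card C := rfl
  omega

theorem exists_fr {k : ℕ} (hR : Fintype.card R = Fintype.card S + k)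
    {σ : S → R × C} (D : Finset R) (hD : D.card < k) : ∃ x, FR σ x ∧ x ∉ D := by
  by_contra hcon
  push Not at hcon
  have h1 : (univ : Finset R) ⊆ D ∪ (univ : Finset S).image (fun s => (σ s).1) := by
    intro c _
    rw [Finset.mem_union, Finset.mem_image]
    by_cases hc : FR σ c
    · exact Or.inl (hcon c hc)
    · unfold FR at hc
      push Not at hc
      obtain ⟨s, hs⟩ := hc
      exact Or.inr ⟨s, Finset.mem_univ _, hs⟩
  have h2 := Finset.card_le_card h1
  have h3 := Finset.card_union_le D ((univ : Finset S).image (fun s => (σ s).1))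
  have h4 : ((univ : Finset S).image (fun s => (σ s).1)).card ≤ Fintype.card S :=
    Finset.card_image_le
  have h5 : (univ : Finset R).card = Fintype.card R := rfl
  omega

/-- A closed system with one free column has at least three symbols. -/
theorem base_one (hR : Fintype.card R = Fintype.card S + 2)
    (hC : Fintype.card C = Fintype.card S + 1) {σ : S → R × C} (hσ : σ ∈ Y.St) :
    3 ≤ Fintype.card S := by
  by_contra hcon
  obtain ⟨c, hc, _⟩ := exists_fc hC (σ := σ) ∅ (by simp)
  obtain ⟨x, hx, _⟩ := exists_fr hR (σ := σ) ∅ (by simp)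
  obtain ⟨y, hy, hyx⟩ := exists_fr hR (σ := σ) {x} (by simp)
  rw [Finset.mem_singleton] at hyx
  obtain ⟨s, hs⟩ := live hσ hx hc
  obtain ⟨s', hs'⟩ := live hσ hy hc
  have hss' : s ≠ s' := by
    rintro rfl
    exact hyx (Y.inj c y x _ hs' hs)
  have hall : ∀ w : S, w = s ∨ w = s' := by
    intro w
    by_contra h
    push Not at h
    apply hcon
    have h1 : ({s, s', w} : Finset S).card = 3 := by
      rw [Finset.card_eq_three]
      exact ⟨s, s', w, hss', h.1.symm, h.2.symm, rfl⟩
    rw [← h1]
    exact Finset.card_le_univ _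
  -- first route: move `x`, then `y`
  have h1 := move hσ hx hc hs
  have ha1 := fr_upd (s := s) hσ hx (c := c)
  have he1 := fc_upd (s := s) hσ hc (x := x)
  have hy1 := fr_upd_ne (s := s) (x := x) (c := c) hy hyx
  obtain ⟨w, hw⟩ := live h1 hy1 he1
  have hw' : w = s' := by
    rcases hall w with h | h
    · subst h
      exact absurd (Y.inj _ _ _ _ hw (Y.val σ hσ w)) (fun h => hy w h.symm)
    · exact h
  subst hw'
  have h2 := move h1 hy1 he1 hw
  have hb2 := fr_upd (s := w) h1 hy1 (c := (σ s).2)
  have hf2 := fc_upd (s := w) h1 he1 (x := y)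
  have ha2 : FR (upd (upd σ s (x, c)) w (y, (σ s).2)) (σ s).1 :=
    fr_upd_ne ha1 (fun h => hy s h)
  have hw1 : (upd σ s (x, c)) w = σ w := upd_ne _ _ hss'.symm
  rw [hw1] at hf2 hb2
  obtain ⟨w1, hw1'⟩ := live h2 ha2 hf2
  have hw1s : w1 = s := by
    rcases hall w1 with h | h
    · exact h
    · subst h
      have := Y.inj _ _ _ _ hw1' (Y.val σ hσ w1)
      exact absurd (Y.rinj σ hσ _ _ this) hss'
  subst hw1s
  -- second route: move `y`
  have g1 := move hσ hy hc hs'
  have gx := fr_upd_ne (s := w) (x := y) (c := c) hx (fun h => hyx h.symm)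
  have gf := fc_upd (s := w) hσ hc (x := y)
  obtain ⟨w2, hw2⟩ := live g1 gx gf
  have hw2s : w2 = w1 := by
    rcases hall w2 with h | h
    · exact h
    · subst h
      have := Y.inj _ _ _ _ hw2 (Y.val σ hσ w2)
      exact absurd this.symm (hx _)
  subst hw2s
  have := Y.inj _ _ _ _ hw2 hw1'
  exact hx _ this.symm

end

end StE5
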